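import Mathlib.Data.Nat.Bitwise
import Mathlib.Data.Nat.Log

/-! Kernel-evaluated search for 6-dimensional flats inside a subset of `F_2^13` given by a bit mask.
All functions use the binary natural number operations directly. -/

namespace H863Z.PS

def uM : ℕ := 0x258fdcb886ba64f19286ea1e2522e060a29b7181dd176e6cb3008c50622f8696b04fd9dbda22a652a3c134fbf38f601a76d0c85e0ecf1b8dff06af8d79d381018de0ba5f7541279a5e838a6273d4f4cd58ae35324c3e7b535dc4e27c3b7da02cf864c8836236a08852e562a8000cb36686e188ed49fd7334f3ff419d22536d0134132c065ca2e682d5ec2a06ed36e98c7534136e6a92f8aba1af2775ef821a4c00862f578834703ca8549ef5dc4de0716df9261d21d68bd214cbffad71217701d30c7f59a8157d62d763e6ec1634c293cbd0247992004cf07a8c3a89b6d3d03de1ce11582d73b78e481ce2705ed0890c48d8773837c77664751193ffdbc02f01871cbd1af2a4b62df453a38fc83f09745062ad19c9dbdf8658dcc0a88a61a650703ecead61a84e5be81fc0b54a9e9f92a82ce500cbd012aa09ed9ba0ff572d0182791a644c9d00ccbf6d9fd0121d07a8af18aea75c946b8a05c9e7937a1cad72ea6f6826a9da8665b4bc4ce652516d97e818513e168c4c12658fb37d05ff4801f2f3b91e14e346703460001a9d8a575a0dd81a2614b6522498f862d1bba27c8b77f723249b4c17d0eb03d3bc596516ac1ac69b2cd6ea0d67e58b1803739fff01ca54caca6bca72e97878acb90e7878d998c7e4e4e48ee4e3566c565656a44f1fd29c9c329cd59c5d2e2e3b2e9a2ec237b5b26874b2b2b2a7f3edaf7ddb9f77fe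
def gM : ℕ := Nat.lor (Nat.xor uM (Nat.sub (Nat.pow 2 4096) 1)) (Nat.shiftLeft uM 4096)
def p2 (l : ℕ) : ℕ := Nat.pow 2 l
noncomputable def rep (a s d : ℕ) : ℕ :=
  Nat.rec a (fun d ih => Nat.lor ih (Nat.shiftLeft ih (p2 (Nat.add s d)))) d
noncomputable def mkR (l d : ℕ) : ℕ := rep (Nat.sub (Nat.pow 2 (Nat.pow 2 l)) 1) (Nat.succ l) d
noncomputable def mk (l : ℕ) : ℕ := mkR l (Nat.sub 18 l)
noncomputable def swp (l T : ℕ) : ℕ :=
  Nat.lor (Nat.shiftLeft (Nat.land T (mk l)) (p2 l)) (Nat.land (Nat.shiftRight T (p2 l)) (mk l))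
def bt (p l : ℕ) : Bool := Nat.beq (Nat.land (Nat.shiftRight p l) 1) 1
noncomputable def dbl (n T d : ℕ) : ℕ :=
  Nat.rec T (fun l ih => Nat.lor ih (Nat.shiftLeft (swp l ih) (p2 (Nat.add n l)))) d
noncomputable def cmp1 (j y : ℕ) : ℕ :=
  Nat.lor (Nat.land y (mk (Nat.succ j)))
    (Nat.shiftRight (Nat.xor y (Nat.land y (mk (Nat.succ j)))) (p2 j))
noncomputable def cmp (t y d : ℕ) : ℕ := Nat.rec y (fun i ih => cmp1 (Nat.add t i) ih) d
noncomputable def fold (F s d : ℕ) : ℕ :=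
  Nat.rec F (fun i ih => Nat.add ih (Nat.shiftRight ih (p2 (Nat.add s i)))) d
noncomputable def flg (t m Y : ℕ) : ℕ := Nat.land (Nat.shiftRight (Nat.add Y m) (p2 t)) m
noncomputable def ofs (n t k : ℕ) : ℕ := rep (Nat.shiftLeft (Nat.sub (p2 (Nat.sub n t)) 1) k) n t
noncomputable def alv (n t k Y : ℕ) : ℕ :=
  Nat.land (fold (flg t (mkR t (Nat.pred n)) Y) (Nat.succ t) (Nat.sub (Nat.pred n) t)) (ofs n t k)
noncomputable def slots (nxt : ℕ → Bool) (n l : ℕ) : ℕ → ℕ → Bool :=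
  Nat.rec (fun D Y => Bool.rec (nxt Y) true (Nat.beq D 0))
    (fun l ih D Y => Bool.rec (Bool.rec false
      (ih (Nat.shiftRight D (p2 (Nat.add n l))) (Nat.shiftRight Y (p2 (Nat.add n l))))
      (ih (Nat.mod D (p2 (p2 (Nat.add n l)))) (Nat.mod Y (p2 (p2 (Nat.add n l))))))
      true (Nat.beq D 0)) l
noncomputable def rng (p : ℕ → Bool) (lo n : ℕ) : Bool :=
  Nat.rec true (fun i ih => Bool.rec false ih (p (Nat.add lo i))) n
noncomputable def step2 (nxt : ℕ → Bool) (n t k Y : ℕ) : Bool :=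
  slots nxt n t (Bool.rec (rep 1 n t) (alv n t k Y) (Nat.ble 3 t)) Y
noncomputable def step (ih : ℕ → ℕ → Bool) (k S t : ℕ) : Bool :=
  step2 (fun y => ih t (cmp t y (Nat.sub (Nat.add k 7) t))) (Nat.add k 8) t k
    (Nat.land (Nat.land (rep S (Nat.add k 8) t) (dbl (Nat.add k 8) (swp t S) t))
      (mkR t (Nat.pred (Nat.add k 8))))
noncomputable def search (k : ℕ) : ℕ → ℕ → Bool :=
  Nat.rec (fun _ S => Nat.beq S 0) (fun k ih h S => rng (step ih k S) h (Nat.sub 8 h)) k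
noncomputable def trn (w T : ℕ) (b : ℕ) : ℕ :=
  Nat.rec T (fun l ih => Bool.rec ih (swp l ih) (bt w l)) b
noncomputable def top (w : ℕ) : Bool :=
  search 5 (Nat.log2 w) (cmp (Nat.log2 w)
    (Nat.land (Nat.land gM (mk (Nat.log2 w))) (trn w gM 8)) (Nat.sub 12 (Nat.log2 w)))

end H863Z.PS
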