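import Mathlib
import Pool.Agent.H863Z.PS.Fun

namespace H863Z.PS

lemma p2_eq (l : ℕ) : p2 l = 2 ^ l := rfl

lemma rep_zero (a s : ℕ) : rep a s 0 = a := rfl
lemma rep_succ (a s d : ℕ) : rep a s (d + 1) = rep a s d ||| (rep a s d) <<< (2 ^ (s + d)) := rfl

lemma rep_testBit {a s : ℕ} (ha : a < 2 ^ (2 ^ s)) (d x : ℕ) :
    (rep a s d).testBit x = (decide (x < 2 ^ (s + d)) && a.testBit (x % 2 ^ s)) := by
  induction d generalizing x with
  | zero =>
    rw [rep_zero]
    by_cases hx : x < 2 ^ s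
    · simp [hx, Nat.mod_eq_of_lt hx]
    · have : a.testBit x = false :=
        Nat.testBit_lt_two_pow (lt_of_lt_of_le ha (Nat.pow_le_pow_right (by norm_num) (by omega)))
      simp [hx, this]
  | succ d ih =>
    rw [rep_succ, Nat.testBit_or, Nat.testBit_shiftLeft, ih, ih]
    have e : 2 ^ (s + (d + 1)) = 2 ^ (s + d) + 2 ^ (s + d) := by rw [← add_assoc, pow_succ]; ring
    by_cases h1 : x < 2 ^ (s + d)
    · have h2 : x < 2 ^ (s + (d + 1)) := by omega
      have h3 : ¬ x ≥ 2 ^ (s + d) := by omega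
      simp [h1, h2, h3]
    · have h3 : x ≥ 2 ^ (s + d) := by omega
      have hm : (x - 2 ^ (s + d)) % 2 ^ s = x % 2 ^ s := by
        have : x = (x - 2 ^ (s + d)) + 2 ^ s * 2 ^ d := by rw [← pow_add]; omega
        conv_rhs => rw [this, Nat.add_mul_mod_self_left]
      rw [hm]
      by_cases h2 : x < 2 ^ (s + (d + 1))
      · have h4 : x - 2 ^ (s + d) < 2 ^ (s + d) := by omega
        simp [h1, h2, h3, h4]
      · have h4 : ¬ x - 2 ^ (s + d) < 2 ^ (s + d) := by omega
        simp [h1, h2, h4]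

lemma rep_of {a s d u x : ℕ} (hu : u < 2 ^ d) (h : a.testBit x = true) :
    (rep a s d).testBit (u * 2 ^ s + x) = true := by
  induction d generalizing u with
  | zero =>
    have : u = 0 := by simpa using hu
    subst this
    simpa [rep_zero] using h
  | succ d ih =>
    rw [rep_succ, Nat.testBit_or, Nat.testBit_shiftLeft]
    by_cases h1 : u < 2 ^ d
    · simp [ih h1]
    · have h2 : u - 2 ^ d < 2 ^ d := by rw [pow_succ] at hu; omega
      have e : u * 2 ^ s + x = 2 ^ (s + d) + ((u - 2 ^ d) * 2 ^ s + x) := by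
        have : u = 2 ^ d + (u - 2 ^ d) := by omega
        conv_lhs => rw [this]
        rw [pow_add]; ring
      have h3 := ih h2
      rw [e, Nat.add_sub_cancel_left, h3]
      simp

lemma mod_lt_iff (x l : ℕ) : x % 2 ^ (l + 1) < 2 ^ l ↔ x.testBit l = false := by
  have h1 : x % 2 ^ (l + 1) = x % 2 ^ l + 2 ^ l * (x / 2 ^ l % 2) := by
    rw [pow_succ, Nat.mod_mul]
  have h2 : x % 2 ^ l < 2 ^ l := Nat.mod_lt _ (by positivity)
  rw [Nat.testBit_eq_decide_div_mod_eq, h1]
  rcases Nat.mod_two_eq_zero_or_one (x / 2 ^ l) with h | h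
  · simp [h, h2]
  · simp [h]

lemma mkR_testBit (l d x : ℕ) :
    (mkR l d).testBit x = (decide (x < 2 ^ (l + 1 + d)) && !x.testBit l) := by
  have ha : 2 ^ (2 ^ l) - 1 < 2 ^ (2 ^ (l + 1)) := by
    have : 2 ^ (2 ^ l) ≤ 2 ^ (2 ^ (l + 1)) :=
      Nat.pow_le_pow_right (by norm_num) (Nat.pow_le_pow_right (by norm_num) (by omega))
    have : 0 < 2 ^ (2 ^ l) := by positivity
    omega
  have := rep_testBit ha d x
  change (rep (2 ^ (2 ^ l) - 1) (l + 1) d).testBit x = _
  rw [this, Nat.testBit_two_pow_sub_one]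
  congr 1
  cases hb : x.testBit l
  · simp [(mod_lt_iff x l).mpr hb]
  · have : ¬ x % 2 ^ (l + 1) < 2 ^ l := by rw [mod_lt_iff, hb]; simp
    simp [this]

lemma mk_testBit {l x : ℕ} (hl : l ≤ 18) (hx : x < 2 ^ 19) : (mk l).testBit x = !x.testBit l := by
  change (mkR l (18 - l)).testBit x = _
  rw [mkR_testBit, show l + 1 + (18 - l) = 19 by omega]
  simp only [hx, decide_true, Bool.true_and]

lemma xor_two_pow_of_false {x l : ℕ} (h : x.testBit l = false) : x ^^^ 2 ^ l = x + 2 ^ l := by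
  apply Nat.eq_of_testBit_eq
  intro j
  rw [Nat.testBit_xor, Nat.testBit_two_pow, add_comm]
  rcases lt_trichotomy j l with hj | hj | hj
  · rw [Nat.testBit_two_pow_add_gt hj]
    have : ¬ l = j := by omega
    simp [this]
  · subst hj
    rw [Nat.testBit_two_pow_add_eq, h]; simp
  · have hx : x = 2 ^ (l + 1) * (x / 2 ^ (l + 1)) + x % 2 ^ (l + 1) := (Nat.div_add_mod _ _).symm
    have h1 := (mod_lt_iff x l).mpr h
    have h2 : x % 2 ^ (l + 1) < 2 ^ (l + 1) := Nat.mod_lt _ (by positivity)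
    have h3 : 2 ^ l + x % 2 ^ (l + 1) < 2 ^ (l + 1) := by
      have : 2 ^ (l + 1) = 2 ^ l + 2 ^ l := by rw [pow_succ]; omega
      omega
    have e : 2 ^ l + x = 2 ^ (l + 1) * (x / 2 ^ (l + 1)) + (2 ^ l + x % 2 ^ (l + 1)) := by omega
    have hn : ¬ j < l + 1 := by omega
    have hn' : ¬ l = j := by omega
    rw [e, Nat.testBit_two_pow_mul_add _ h3]
    conv_lhs => rw [hx, Nat.testBit_two_pow_mul_add _ h2]
    simp [hn, hn']

lemma xor_two_pow_of_true {x l : ℕ} (h : x.testBit l = true) :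
    (x ^^^ 2 ^ l) + 2 ^ l = x ∧ (x ^^^ 2 ^ l).testBit l = false := by
  have h2 : (x ^^^ 2 ^ l).testBit l = false := by
    rw [Nat.testBit_xor, h, Nat.testBit_two_pow_self]; rfl
  refine ⟨?_, h2⟩
  rw [← xor_two_pow_of_false h2, Nat.xor_assoc, Nat.xor_self, Nat.xor_zero]

lemma swp_of {l T x : ℕ} (hl : l ≤ 18) (hx : x < 2 ^ 19) (h : T.testBit (x ^^^ 2 ^ l) = true) :
    (swp l T).testBit x = true := by
  change (((T &&& mk l) <<< (2 ^ l)) ||| ((T >>> (2 ^ l)) &&& mk l)).testBit x = true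
  rw [Nat.testBit_or, Nat.testBit_shiftLeft, Nat.testBit_and, Nat.testBit_and,
    Nat.testBit_shiftRight]
  cases hb : x.testBit l
  · rw [xor_two_pow_of_false hb, add_comm] at h
    rw [h, mk_testBit hl hx, hb]; simp
  · obtain ⟨h1, h2⟩ := xor_two_pow_of_true hb
    have e : x - 2 ^ l = x ^^^ 2 ^ l := by omega
    have hge : x ≥ 2 ^ l := by omega
    have hlt : x ^^^ 2 ^ l < 2 ^ 19 := lt_of_le_of_lt (Nat.le.intro h1) hx
    rw [e, h, mk_testBit hl hlt, h2]
    simp [hge]

lemma slot_xor {u x n l : ℕ} (hx : x < 2 ^ n) (hl : l < n) :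
    (u * 2 ^ n + x) ^^^ 2 ^ l = u * 2 ^ n + (x ^^^ 2 ^ l) := by
  have h2 : x ^^^ 2 ^ l < 2 ^ n :=
    Nat.xor_lt_two_pow hx (Nat.pow_lt_pow_right (by norm_num) hl)
  apply Nat.eq_of_testBit_eq
  intro j
  rw [Nat.testBit_xor, mul_comm u, Nat.testBit_two_pow_mul_add _ hx,
    Nat.testBit_two_pow_mul_add _ h2, Nat.testBit_two_pow]
  by_cases hj : j < n
  · simp [hj, Nat.testBit_xor, Nat.testBit_two_pow]
  · have : ¬ l = j := by omega
    simp [hj, this]

lemma dbl_succ (n T d : ℕ) :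
    dbl n T (d + 1) = dbl n T d ||| (swp d (dbl n T d)) <<< (2 ^ (n + d)) := rfl

lemma dbl_of {n T d u x : ℕ} (hd : d ≤ n) (hn : n + d ≤ 19) (hu : u < 2 ^ d) (hx : x < 2 ^ n)
    (h : T.testBit (x ^^^ u) = true) : (dbl n T d).testBit (u * 2 ^ n + x) = true := by
  induction d generalizing u x with
  | zero =>
    have : u = 0 := by simpa using hu
    subst this
    change T.testBit _ = true
    simpa using h
  | succ d ih =>
    rw [dbl_succ, Nat.testBit_or, Nat.testBit_shiftLeft]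
    by_cases h1 : u < 2 ^ d
    · simp [ih (by omega) (by omega) h1 hx h]
    · have h2 : u - 2 ^ d < 2 ^ d := by rw [pow_succ] at hu; omega
      have e : u * 2 ^ n + x = 2 ^ (n + d) + ((u - 2 ^ d) * 2 ^ n + x) := by
        have : u = 2 ^ d + (u - 2 ^ d) := by omega
        conv_lhs => rw [this]
        rw [pow_add]; ring
      have hlt : (u - 2 ^ d) * 2 ^ n + x < 2 ^ 19 := by
        have h5 : (u - 2 ^ d + 1) * 2 ^ n ≤ 2 ^ d * 2 ^ n := Nat.mul_le_mul_right _ (by omega)
        have h6 : 2 ^ d * 2 ^ n ≤ 2 ^ 19 := by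
          rw [← pow_add]; exact Nat.pow_le_pow_right (by norm_num) (by omega)
        nlinarith
      have hx' : x ^^^ 2 ^ d < 2 ^ n :=
        Nat.xor_lt_two_pow hx (Nat.pow_lt_pow_right (by norm_num) (by omega))
      have hu' : (u - 2 ^ d) ^^^ 2 ^ d = u := by
        rw [xor_two_pow_of_false (Nat.testBit_lt_two_pow h2)]; omega
      have h3 : T.testBit ((x ^^^ 2 ^ d) ^^^ (u - 2 ^ d)) = true := by
        rw [Nat.xor_assoc, Nat.xor_comm (2 ^ d), hu']; exact h
      have h4 := ih (by omega) (by omega) h2 hx' h3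
      rw [← slot_xor hx (by omega)] at h4
      have h5 := swp_of (by omega) hlt h4
      rw [e, Nat.add_sub_cancel_left, h5]
      simp

lemma bt_eq (w l : ℕ) : bt w l = w.testBit l := by
  change Nat.beq ((w >>> l) &&& 1) 1 = _
  rw [Nat.testBit, Nat.and_comm, Nat.one_and_eq_mod_two]
  rcases Nat.mod_two_eq_zero_or_one (w >>> l) with h | h <;> rw [h] <;> rfl

lemma trn_succ (w T b : ℕ) :
    trn w T (b + 1) = Bool.rec (trn w T b) (swp b (trn w T b)) (bt w b) := rfl

lemma trn_of {w T b x : ℕ} (hb : b ≤ 19) (hx : x < 2 ^ 19)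
    (h : T.testBit (x ^^^ (w % 2 ^ b)) = true) : (trn w T b).testBit x = true := by
  induction b generalizing x with
  | zero =>
    change T.testBit _ = true
    simpa [Nat.mod_one] using h
  | succ b ih =>
    rw [trn_succ, bt_eq]
    have h1 : w % 2 ^ (b + 1) = w % 2 ^ b + 2 ^ b * (w / 2 ^ b % 2) := by
      rw [pow_succ, Nat.mod_mul]
    have h2 : w % 2 ^ b < 2 ^ b := Nat.mod_lt _ (by positivity)
    cases hb' : w.testBit b
    · rw [Nat.testBit_eq_decide_div_mod_eq] at hb'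
      have h3 : w / 2 ^ b % 2 = 0 := by
        have : ¬ w / 2 ^ b % 2 = 1 := by simpa using hb'
        omega
      rw [h1, h3, mul_zero, add_zero] at h
      exact ih (by omega) hx h
    · rw [Nat.testBit_eq_decide_div_mod_eq] at hb'
      have h3 : w / 2 ^ b % 2 = 1 := by simpa using hb'
      rw [h1, h3, mul_one, ← xor_two_pow_of_false (Nat.testBit_lt_two_pow h2),
        Nat.xor_comm (w % 2 ^ b), ← Nat.xor_assoc] at h
      have hx' : x ^^^ 2 ^ b < 2 ^ 19 :=
        Nat.xor_lt_two_pow hx (Nat.pow_lt_pow_right (by norm_num) (by omega))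
      exact swp_of (by omega) hx (ih (by omega) hx' h)

/-- insert a zero bit at position `t` -/
def ins (t x : ℕ) : ℕ := 2 ^ (t + 1) * (x / 2 ^ t) + x % 2 ^ t
/-- delete the bit at position `t` -/
def del (t x : ℕ) : ℕ := 2 ^ t * (x / 2 ^ (t + 1)) + x % 2 ^ t

lemma del_testBit (t x j : ℕ) :
    (del t x).testBit j = if j < t then x.testBit j else x.testBit (j + 1) := by
  unfold del
  rw [Nat.testBit_two_pow_mul_add _ (Nat.mod_lt _ (by positivity))]
  split_ifs with h
  · rw [Nat.testBit_mod_two_pow]; simp [h]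
  · rw [Nat.testBit_div_two_pow]; congr 1; omega

lemma del_xor (t x y : ℕ) : del t (x ^^^ y) = del t x ^^^ del t y := by
  apply Nat.eq_of_testBit_eq
  intro j
  rw [Nat.testBit_xor, del_testBit, del_testBit, del_testBit]
  split_ifs <;> rw [Nat.testBit_xor]

lemma ins_del {t x : ℕ} (h : x.testBit t = false) : ins t (del t x) = x := by
  have h1 : x % 2 ^ (t + 1) = x % 2 ^ t + 2 ^ t * (x / 2 ^ t % 2) := by
    rw [pow_succ, Nat.mod_mul]
  have h2 : x % 2 ^ t < 2 ^ t := Nat.mod_lt _ (by positivity)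
  have h3 : x / 2 ^ t % 2 = 0 := by
    rw [Nat.testBit_eq_decide_div_mod_eq] at h
    have : ¬ x / 2 ^ t % 2 = 1 := by simpa using h
    omega
  have h4 : del t x / 2 ^ t = x / 2 ^ (t + 1) := by
    unfold del
    rw [add_comm, Nat.add_mul_div_left _ _ (by positivity), Nat.div_eq_of_lt h2, zero_add]
  have h5 : del t x % 2 ^ t = x % 2 ^ t := by
    unfold del
    rw [add_comm, Nat.add_mul_mod_self_left, Nat.mod_eq_of_lt h2]
  unfold ins
  rw [h4, h5]
  have := Nat.div_add_mod x (2 ^ (t + 1))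
  rw [h1, h3] at this
  omega

lemma ins_lt {t x n : ℕ} (ht : t ≤ n) (hx : x < 2 ^ n) : ins t x < 2 ^ (n + 1) := by
  unfold ins
  have h2 : x % 2 ^ t < 2 ^ t := Nat.mod_lt _ (by positivity)
  have h1 := Nat.div_add_mod x (2 ^ t)
  have h3 : x / 2 ^ t < 2 ^ (n - t) := by
    rw [Nat.div_lt_iff_lt_mul (by positivity), ← pow_add]
    rwa [show n - t + t = n by omega]
  have h4 : 2 ^ (t + 1) * (x / 2 ^ t + 1) ≤ 2 ^ (t + 1) * 2 ^ (n - t) :=
    Nat.mul_le_mul_left _ h3
  rw [← pow_add, show t + 1 + (n - t) = n + 1 by omega, mul_add, mul_one] at h4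
  rw [pow_succ 2 t] at h4 ⊢
  omega

lemma ins_top {n x : ℕ} (hx : x < 2 ^ n) : ins n x = x := by
  unfold ins
  rw [Nat.div_eq_of_lt hx, Nat.mod_eq_of_lt hx]; simp

lemma ins_step (j x : ℕ) :
    (ins j x = ins (j + 1) x ∧ (ins j x).testBit (j + 1) = false) ∨
    (ins j x = 2 ^ j + ins (j + 1) x ∧ (ins j x).testBit (j + 1) = true) := by
  have h1 : x % 2 ^ (j + 1) = x % 2 ^ j + 2 ^ j * (x / 2 ^ j % 2) := by
    rw [pow_succ, Nat.mod_mul]
  have h2 : x % 2 ^ j < 2 ^ j := Nat.mod_lt _ (by positivity)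
  have h2' : x % 2 ^ j < 2 ^ (j + 1) := by rw [pow_succ]; omega
  have h3 : x / 2 ^ (j + 1) = x / 2 ^ j / 2 := by rw [pow_succ, Nat.div_div_eq_div_mul]
  have hb : (ins j x).testBit (j + 1) = decide (x / 2 ^ j % 2 = 1) := by
    unfold ins
    rw [Nat.testBit_two_pow_mul_add _ h2']
    simp [Nat.testBit_zero]
  rw [hb]
  have h4 := Nat.div_add_mod (x / 2 ^ j) 2
  rcases Nat.mod_two_eq_zero_or_one (x / 2 ^ j) with h | h
  · left
    refine ⟨?_, by simp [h]⟩
    unfold ins
    rw [h1, h3, h]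
    rw [h] at h4
    conv_lhs => rw [← h4]
    ring
  · right
    refine ⟨?_, by simp [h]⟩
    unfold ins
    rw [h1, h3, h]
    rw [h] at h4
    conv_lhs => rw [← h4]
    ring

lemma cmp1_of {j y x : ℕ} (hj : j + 1 ≤ 18) (hx : ins j x < 2 ^ 19)
    (h : y.testBit (ins j x) = true) : (cmp1 j y).testBit (ins (j + 1) x) = true := by
  change ((y &&& mk (j + 1)) ||| ((y ^^^ (y &&& mk (j + 1))) >>> (2 ^ j))).testBit _ = true
  rw [Nat.testBit_or, Nat.testBit_and, Nat.testBit_shiftRight, Nat.testBit_xor, Nat.testBit_and]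
  rcases ins_step j x with ⟨h1, h2⟩ | ⟨h1, h2⟩
  · rw [← h1, h, mk_testBit hj hx, h2]; simp
  · rw [← h1, h, mk_testBit hj hx, h2]; simp

lemma cmp_succ (t y d : ℕ) : cmp t y (d + 1) = cmp1 (t + d) (cmp t y d) := rfl

lemma cmp_of {t y d x n : ℕ} (hn : n ≤ 18) (hd : t + d ≤ n) (hx : x < 2 ^ n)
    (h : y.testBit (ins t x) = true) : (cmp t y d).testBit (ins (t + d) x) = true := by
  induction d with
  | zero => exact h
  | succ d ih =>
    rw [cmp_succ, ← add_assoc]
    apply cmp1_of (by omega) _ (ih (by omega))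
    exact lt_of_lt_of_le (ins_lt (by omega) hx) (Nat.pow_le_pow_right (by norm_num) (by omega))

lemma rng_spec {p : ℕ → Bool} {lo n : ℕ} (h : rng p lo n = true) :
    ∀ t, lo ≤ t → t < lo + n → p t = true := by
  induction n with
  | zero => intro t h1 h2; omega
  | succ n ih =>
    have h' : (Bool.rec false (rng p lo n) (p (lo + n)) : Bool) = true := h
    cases hp : p (lo + n)
    · rw [hp] at h'; exact absurd h' (by simp)
    · rw [hp] at h'
      intro t h1 h2
      by_cases h3 : t = lo + n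
      · rw [h3]; exact hp
      · exact ih h' t h1 (by omega)

lemma slots_spec {nxt : ℕ → Bool} {n l D Y : ℕ} (h : slots nxt n l D Y = true) :
    ∀ u < 2 ^ l, (∃ j < 2 ^ n, D.testBit (u * 2 ^ n + j) = true) →
      ∃ y, (∀ x < 2 ^ n, Y.testBit (u * 2 ^ n + x) = true → y.testBit x = true) ∧ nxt y = true := by
  induction l generalizing D Y with
  | zero =>
    intro u hu ⟨j, _, hD⟩
    have : u = 0 := by simpa using hu
    subst this
    have h' : (Bool.rec (nxt Y) true (Nat.beq D 0) : Bool) = true := h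
    have hD0 : Nat.beq D 0 = false := by
      cases hh : Nat.beq D 0
      · rfl
      · have := Nat.eq_of_beq_eq_true hh
        subst this
        simp at hD
    rw [hD0] at h'
    exact ⟨Y, fun x _ hx => by simpa using hx, h'⟩
  | succ l ih =>
    intro u hu ⟨j, hj, hD⟩
    have h' : (Bool.rec (Bool.rec false
      (slots nxt n l (D >>> (2 ^ (n + l))) (Y >>> (2 ^ (n + l))))
      (slots nxt n l (D % (2 ^ (2 ^ (n + l)))) (Y % (2 ^ (2 ^ (n + l))))) : Bool)
      true (Nat.beq D 0) : Bool) = true := h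
    have hD0 : Nat.beq D 0 = false := by
      cases hh : Nat.beq D 0
      · rfl
      · have := Nat.eq_of_beq_eq_true hh
        subst this
        simp at hD
    rw [hD0] at h'
    have h1 : slots nxt n l (D % (2 ^ (2 ^ (n + l)))) (Y % (2 ^ (2 ^ (n + l)))) = true := by
      cases hh : slots nxt n l (D % (2 ^ (2 ^ (n + l)))) (Y % (2 ^ (2 ^ (n + l))))
      · rw [hh] at h'; exact absurd h' (by simp)
      · rfl
    rw [h1] at h'
    have h2 : slots nxt n l (D >>> (2 ^ (n + l))) (Y >>> (2 ^ (n + l))) = true := h'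
    by_cases hul : u < 2 ^ l
    · have hlt : ∀ x < 2 ^ n, u * 2 ^ n + x < 2 ^ (n + l) := by
        intro x hx
        have h5 : (u + 1) * 2 ^ n ≤ 2 ^ l * 2 ^ n := Nat.mul_le_mul_right _ (by omega)
        rw [pow_add]; nlinarith
      obtain ⟨y, hy, hn⟩ := ih h1 u hul ⟨j, hj, by
        rw [Nat.testBit_mod_two_pow, hD]; simp [hlt j hj]⟩
      refine ⟨y, fun x hx hY => hy x hx ?_, hn⟩
      rw [Nat.testBit_mod_two_pow, hY]; simp [hlt x hx]
    · have h3 : u - 2 ^ l < 2 ^ l := by rw [pow_succ] at hu; omega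
      have e : ∀ x, u * 2 ^ n + x = 2 ^ (n + l) + ((u - 2 ^ l) * 2 ^ n + x) := by
        intro x
        have : u = 2 ^ l + (u - 2 ^ l) := by omega
        conv_lhs => rw [this]
        rw [pow_add]; ring
      obtain ⟨y, hy, hn⟩ := ih h2 (u - 2 ^ l) h3 ⟨j, hj, by
        rw [Nat.testBit_shiftRight, ← e, hD]⟩
      refine ⟨y, fun x hx hY => hy x hx ?_, hn⟩
      rw [Nat.testBit_shiftRight, ← e, hY]

end H863Z.PS
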