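import Pool.Agent.H863Z.PS.Fun

namespace H863Z.PS

theorem top_1 : top 1 = true := by decide +kernel
theorem top_2 : top 2 = true := by decide +kernel
theorem top_3 : top 3 = true := by decide +kernel
theorem top_4 : top 4 = true := by decide +kernel
theorem top_5 : top 5 = true := by decide +kernel

theorem chunk0 : ∀ w ∈ [1, 2, 3, 4, 5], top w = true := by
  intro w hw
  simp only [List.mem_cons, List.not_mem_nil, or_false] at hw
  rcases hw with rfl | rfl | rfl | rfl | rfl
  · exact top_1
  · exact top_2
  · exact top_3
  · exact top_4
  · exact top_5

end H863Z.PS
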