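import Pool.Agent.H863Z.PS.Fun

namespace H863Z.PS

theorem top_6 : top 6 = true := by decide +kernel
theorem top_7 : top 7 = true := by decide +kernel
theorem top_8 : top 8 = true := by decide +kernel
theorem top_9 : top 9 = true := by decide +kernel
theorem top_10 : top 10 = true := by decide +kernel

theorem chunk1 : ∀ w ∈ [6, 7, 8, 9, 10], top w = true := by
  intro w hw
  simp only [List.mem_cons, List.not_mem_nil, or_false] at hw
  rcases hw with rfl | rfl | rfl | rfl | rfl
  · exact top_6
  · exact top_7
  · exact top_8
  · exact top_9
  · exact top_10

end H863Z.PS
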