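import Pool.Agent.H863Z.PS.Chunk8

namespace H863Z.PS

theorem top_74 : top 74 = true := by decide +kernel
theorem top_75 : top 75 = true := by decide +kernel
theorem top_76 : top 76 = true := by decide +kernel
theorem top_77 : top 77 = true := by decide +kernel
theorem top_78 : top 78 = true := by decide +kernel
theorem top_79 : top 79 = true := by decide +kernel
theorem top_80 : top 80 = true := by decide +kernel
theorem top_81 : top 81 = true := by decide +kernel
theorem top_82 : top 82 = true := by decide +kernel
theorem top_83 : top 83 = true := by decide +kernel
theorem top_84 : top 84 = true := by decide +kernel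
theorem top_85 : top 85 = true := by decide +kernel
theorem top_86 : top 86 = true := by decide +kernel
theorem top_87 : top 87 = true := by decide +kernel

theorem chunk10 : ∀ w ∈ [74, 75, 76, 77, 78, 79, 80, 81, 82, 83, 84, 85, 86, 87], top w = true := by
  intro w hw
  simp only [List.mem_cons, List.not_mem_nil, or_false] at hw
  rcases hw with rfl | rfl | rfl | rfl | rfl | rfl | rfl | rfl | rfl | rfl | rfl | rfl | rfl | rfl
  · exact top_74
  · exact top_75
  · exact top_76
  · exact top_77
  · exact top_78
  · exact top_79
  · exact top_80
  · exact top_81
  · exact top_82
  · exact top_83
  · exact top_84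
  · exact top_85
  · exact top_86
  · exact top_87

end H863Z.PS
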