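import Pool.Agent.H863Z.PS.Chunk9

namespace H863Z.PS

theorem top_88 : top 88 = true := by decide +kernel
theorem top_89 : top 89 = true := by decide +kernel
theorem top_90 : top 90 = true := by decide +kernel
theorem top_91 : top 91 = true := by decide +kernel
theorem top_92 : top 92 = true := by decide +kernel
theorem top_93 : top 93 = true := by decide +kernel
theorem top_94 : top 94 = true := by decide +kernel
theorem top_95 : top 95 = true := by decide +kernel
theorem top_96 : top 96 = true := by decide +kernel
theorem top_97 : top 97 = true := by decide +kernel
theorem top_98 : top 98 = true := by decide +kernel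
theorem top_99 : top 99 = true := by decide +kernel
theorem top_100 : top 100 = true := by decide +kernel
theorem top_101 : top 101 = true := by decide +kernel
theorem top_102 : top 102 = true := by decide +kernel
theorem top_103 : top 103 = true := by decide +kernel
theorem top_104 : top 104 = true := by decide +kernel
theorem top_105 : top 105 = true := by decide +kernel

theorem chunk11 : ∀ w ∈ [88, 89, 90, 91, 92, 93, 94, 95, 96, 97, 98, 99, 100, 101, 102, 103, 104, 105], top w = true := by
  intro w hw
  simp only [List.mem_cons, List.not_mem_nil, or_false] at hw
  rcases hw with rfl | rfl | rfl | rfl | rfl | rfl | rfl | rfl | rfl | rfl | rfl | rfl | rfl | rfl | rfl | rfl | rfl | rfl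
  · exact top_88
  · exact top_89
  · exact top_90
  · exact top_91
  · exact top_92
  · exact top_93
  · exact top_94
  · exact top_95
  · exact top_96
  · exact top_97
  · exact top_98
  · exact top_99
  · exact top_100
  · exact top_101
  · exact top_102
  · exact top_103
  · exact top_104
  · exact top_105

end H863Z.PS
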