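import Pool.Agent.H863Z.PS.Chunk10

namespace H863Z.PS

theorem top_106 : top 106 = true := by decide +kernel
theorem top_107 : top 107 = true := by decide +kernel
theorem top_108 : top 108 = true := by decide +kernel
theorem top_109 : top 109 = true := by decide +kernel
theorem top_110 : top 110 = true := by decide +kernel
theorem top_111 : top 111 = true := by decide +kernel
theorem top_112 : top 112 = true := by decide +kernel
theorem top_113 : top 113 = true := by decide +kernel
theorem top_114 : top 114 = true := by decide +kernel
theorem top_115 : top 115 = true := by decide +kernel
theorem top_116 : top 116 = true := by decide +kernel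
theorem top_117 : top 117 = true := by decide +kernel
theorem top_118 : top 118 = true := by decide +kernel
theorem top_119 : top 119 = true := by decide +kernel
theorem top_120 : top 120 = true := by decide +kernel
theorem top_121 : top 121 = true := by decide +kernel
theorem top_122 : top 122 = true := by decide +kernel
theorem top_123 : top 123 = true := by decide +kernel
theorem top_124 : top 124 = true := by decide +kernel
theorem top_125 : top 125 = true := by decide +kernel
theorem top_126 : top 126 = true := by decide +kernel
theorem top_127 : top 127 = true := by decide +kernel

theorem chunk12 : ∀ w ∈ [106, 107, 108, 109, 110, 111, 112, 113, 114, 115, 116, 117, 118, 119, 120, 121, 122, 123, 124, 125, 126, 127], top w = true := by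
  intro w hw
  simp only [List.mem_cons, List.not_mem_nil, or_false] at hw
  rcases hw with rfl | rfl | rfl | rfl | rfl | rfl | rfl | rfl | rfl | rfl | rfl | rfl | rfl | rfl | rfl | rfl | rfl | rfl | rfl | rfl | rfl | rfl
  · exact top_106
  · exact top_107
  · exact top_108
  · exact top_109
  · exact top_110
  · exact top_111
  · exact top_112
  · exact top_113
  · exact top_114
  · exact top_115
  · exact top_116
  · exact top_117
  · exact top_118
  · exact top_119
  · exact top_120
  · exact top_121
  · exact top_122
  · exact top_123
  · exact top_124
  · exact top_125
  · exact top_126
  · exact top_127

end H863Z.PS
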