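import Pool.Agent.H863Z.PS.Chunk11

namespace H863Z.PS

theorem top_128 : top 128 = true := by decide +kernel
theorem top_129 : top 129 = true := by decide +kernel
theorem top_130 : top 130 = true := by decide +kernel
theorem top_131 : top 131 = true := by decide +kernel
theorem top_132 : top 132 = true := by decide +kernel
theorem top_133 : top 133 = true := by decide +kernel
theorem top_134 : top 134 = true := by decide +kernel
theorem top_135 : top 135 = true := by decide +kernel
theorem top_136 : top 136 = true := by decide +kernel
theorem top_137 : top 137 = true := by decide +kernel
theorem top_138 : top 138 = true := by decide +kernel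
theorem top_139 : top 139 = true := by decide +kernel
theorem top_140 : top 140 = true := by decide +kernel
theorem top_141 : top 141 = true := by decide +kernel
theorem top_142 : top 142 = true := by decide +kernel
theorem top_143 : top 143 = true := by decide +kernel
theorem top_144 : top 144 = true := by decide +kernel
theorem top_145 : top 145 = true := by decide +kernel
theorem top_146 : top 146 = true := by decide +kernel
theorem top_147 : top 147 = true := by decide +kernel
theorem top_148 : top 148 = true := by decide +kernel
theorem top_149 : top 149 = true := by decide +kernel
theorem top_150 : top 150 = true := by decide +kernel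
theorem top_151 : top 151 = true := by decide +kernel
theorem top_152 : top 152 = true := by decide +kernel
theorem top_153 : top 153 = true := by decide +kernel
theorem top_154 : top 154 = true := by decide +kernel
theorem top_155 : top 155 = true := by decide +kernel
theorem top_156 : top 156 = true := by decide +kernel
theorem top_157 : top 157 = true := by decide +kernel
theorem top_158 : top 158 = true := by decide +kernel
theorem top_159 : top 159 = true := by decide +kernel

theorem chunk13 : ∀ w ∈ [128, 129, 130, 131, 132, 133, 134, 135, 136, 137, 138, 139, 140, 141, 142, 143, 144, 145, 146, 147, 148, 149, 150, 151, 152, 153, 154, 155, 156, 157, 158, 159], top w = true := by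
  intro w hw
  simp only [List.mem_cons, List.not_mem_nil, or_false] at hw
  rcases hw with rfl | rfl | rfl | rfl | rfl | rfl | rfl | rfl | rfl | rfl | rfl | rfl | rfl | rfl | rfl | rfl | rfl | rfl | rfl | rfl | rfl | rfl | rfl | rfl | rfl | rfl | rfl | rfl | rfl | rfl | rfl | rfl
  · exact top_128
  · exact top_129
  · exact top_130
  · exact top_131
  · exact top_132
  · exact top_133
  · exact top_134
  · exact top_135
  · exact top_136
  · exact top_137
  · exact top_138
  · exact top_139
  · exact top_140
  · exact top_141
  · exact top_142
  · exact top_143
  · exact top_144
  · exact top_145
  · exact top_146
  · exact top_147
  · exact top_148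
  · exact top_149
  · exact top_150
  · exact top_151
  · exact top_152
  · exact top_153
  · exact top_154
  · exact top_155
  · exact top_156
  · exact top_157
  · exact top_158
  · exact top_159

end H863Z.PS
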