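import Pool.Agent.H863Z.PS.Chunk12

namespace H863Z.PS

theorem top_160 : top 160 = true := by decide +kernel
theorem top_161 : top 161 = true := by decide +kernel
theorem top_162 : top 162 = true := by decide +kernel
theorem top_163 : top 163 = true := by decide +kernel
theorem top_164 : top 164 = true := by decide +kernel
theorem top_165 : top 165 = true := by decide +kernel
theorem top_166 : top 166 = true := by decide +kernel
theorem top_167 : top 167 = true := by decide +kernel
theorem top_168 : top 168 = true := by decide +kernel
theorem top_169 : top 169 = true := by decide +kernel
theorem top_170 : top 170 = true := by decide +kernel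
theorem top_171 : top 171 = true := by decide +kernel
theorem top_172 : top 172 = true := by decide +kernel
theorem top_173 : top 173 = true := by decide +kernel
theorem top_174 : top 174 = true := by decide +kernel
theorem top_175 : top 175 = true := by decide +kernel
theorem top_176 : top 176 = true := by decide +kernel
theorem top_177 : top 177 = true := by decide +kernel
theorem top_178 : top 178 = true := by decide +kernel
theorem top_179 : top 179 = true := by decide +kernel
theorem top_180 : top 180 = true := by decide +kernel
theorem top_181 : top 181 = true := by decide +kernel
theorem top_182 : top 182 = true := by decide +kernel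
theorem top_183 : top 183 = true := by decide +kernel
theorem top_184 : top 184 = true := by decide +kernel
theorem top_185 : top 185 = true := by decide +kernel
theorem top_186 : top 186 = true := by decide +kernel
theorem top_187 : top 187 = true := by decide +kernel
theorem top_188 : top 188 = true := by decide +kernel
theorem top_189 : top 189 = true := by decide +kernel
theorem top_190 : top 190 = true := by decide +kernel
theorem top_191 : top 191 = true := by decide +kernel

theorem chunk14 : ∀ w ∈ [160, 161, 162, 163, 164, 165, 166, 167, 168, 169, 170, 171, 172, 173, 174, 175, 176, 177, 178, 179, 180, 181, 182, 183, 184, 185, 186, 187, 188, 189, 190, 191], top w = true := by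
  intro w hw
  simp only [List.mem_cons, List.not_mem_nil, or_false] at hw
  rcases hw with rfl | rfl | rfl | rfl | rfl | rfl | rfl | rfl | rfl | rfl | rfl | rfl | rfl | rfl | rfl | rfl | rfl | rfl | rfl | rfl | rfl | rfl | rfl | rfl | rfl | rfl | rfl | rfl | rfl | rfl | rfl | rfl
  · exact top_160
  · exact top_161
  · exact top_162
  · exact top_163
  · exact top_164
  · exact top_165
  · exact top_166
  · exact top_167
  · exact top_168
  · exact top_169
  · exact top_170
  · exact top_171
  · exact top_172
  · exact top_173
  · exact top_174
  · exact top_175
  · exact top_176
  · exact top_177
  · exact top_178
  · exact top_179
  · exact top_180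
  · exact top_181
  · exact top_182
  · exact top_183
  · exact top_184
  · exact top_185
  · exact top_186
  · exact top_187
  · exact top_188
  · exact top_189
  · exact top_190
  · exact top_191

end H863Z.PS
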