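import Pool.Agent.H863Z.PS.Chunk13

namespace H863Z.PS

theorem top_192 : top 192 = true := by decide +kernel
theorem top_193 : top 193 = true := by decide +kernel
theorem top_194 : top 194 = true := by decide +kernel
theorem top_195 : top 195 = true := by decide +kernel
theorem top_196 : top 196 = true := by decide +kernel
theorem top_197 : top 197 = true := by decide +kernel
theorem top_198 : top 198 = true := by decide +kernel
theorem top_199 : top 199 = true := by decide +kernel
theorem top_200 : top 200 = true := by decide +kernel
theorem top_201 : top 201 = true := by decide +kernel
theorem top_202 : top 202 = true := by decide +kernel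
theorem top_203 : top 203 = true := by decide +kernel
theorem top_204 : top 204 = true := by decide +kernel
theorem top_205 : top 205 = true := by decide +kernel
theorem top_206 : top 206 = true := by decide +kernel
theorem top_207 : top 207 = true := by decide +kernel
theorem top_208 : top 208 = true := by decide +kernel
theorem top_209 : top 209 = true := by decide +kernel
theorem top_210 : top 210 = true := by decide +kernel
theorem top_211 : top 211 = true := by decide +kernel
theorem top_212 : top 212 = true := by decide +kernel
theorem top_213 : top 213 = true := by decide +kernel
theorem top_214 : top 214 = true := by decide +kernel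
theorem top_215 : top 215 = true := by decide +kernel
theorem top_216 : top 216 = true := by decide +kernel
theorem top_217 : top 217 = true := by decide +kernel
theorem top_218 : top 218 = true := by decide +kernel
theorem top_219 : top 219 = true := by decide +kernel
theorem top_220 : top 220 = true := by decide +kernel
theorem top_221 : top 221 = true := by decide +kernel
theorem top_222 : top 222 = true := by decide +kernel
theorem top_223 : top 223 = true := by decide +kernel

theorem chunk15 : ∀ w ∈ [192, 193, 194, 195, 196, 197, 198, 199, 200, 201, 202, 203, 204, 205, 206, 207, 208, 209, 210, 211, 212, 213, 214, 215, 216, 217, 218, 219, 220, 221, 222, 223], top w = true := by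
  intro w hw
  simp only [List.mem_cons, List.not_mem_nil, or_false] at hw
  rcases hw with rfl | rfl | rfl | rfl | rfl | rfl | rfl | rfl | rfl | rfl | rfl | rfl | rfl | rfl | rfl | rfl | rfl | rfl | rfl | rfl | rfl | rfl | rfl | rfl | rfl | rfl | rfl | rfl | rfl | rfl | rfl | rfl
  · exact top_192
  · exact top_193
  · exact top_194
  · exact top_195
  · exact top_196
  · exact top_197
  · exact top_198
  · exact top_199
  · exact top_200
  · exact top_201
  · exact top_202
  · exact top_203
  · exact top_204
  · exact top_205
  · exact top_206
  · exact top_207
  · exact top_208
  · exact top_209
  · exact top_210
  · exact top_211
  · exact top_212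
  · exact top_213
  · exact top_214
  · exact top_215
  · exact top_216
  · exact top_217
  · exact top_218
  · exact top_219
  · exact top_220
  · exact top_221
  · exact top_222
  · exact top_223

end H863Z.PS
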