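import Pool.Agent.H863Z.PS.Chunk14

namespace H863Z.PS

theorem top_224 : top 224 = true := by decide +kernel
theorem top_225 : top 225 = true := by decide +kernel
theorem top_226 : top 226 = true := by decide +kernel
theorem top_227 : top 227 = true := by decide +kernel
theorem top_228 : top 228 = true := by decide +kernel
theorem top_229 : top 229 = true := by decide +kernel
theorem top_230 : top 230 = true := by decide +kernel
theorem top_231 : top 231 = true := by decide +kernel
theorem top_232 : top 232 = true := by decide +kernel
theorem top_233 : top 233 = true := by decide +kernel
theorem top_234 : top 234 = true := by decide +kernel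
theorem top_235 : top 235 = true := by decide +kernel
theorem top_236 : top 236 = true := by decide +kernel
theorem top_237 : top 237 = true := by decide +kernel
theorem top_238 : top 238 = true := by decide +kernel
theorem top_239 : top 239 = true := by decide +kernel
theorem top_240 : top 240 = true := by decide +kernel
theorem top_241 : top 241 = true := by decide +kernel
theorem top_242 : top 242 = true := by decide +kernel
theorem top_243 : top 243 = true := by decide +kernel
theorem top_244 : top 244 = true := by decide +kernel
theorem top_245 : top 245 = true := by decide +kernel
theorem top_246 : top 246 = true := by decide +kernel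
theorem top_247 : top 247 = true := by decide +kernel
theorem top_248 : top 248 = true := by decide +kernel
theorem top_249 : top 249 = true := by decide +kernel
theorem top_250 : top 250 = true := by decide +kernel
theorem top_251 : top 251 = true := by decide +kernel
theorem top_252 : top 252 = true := by decide +kernel
theorem top_253 : top 253 = true := by decide +kernel
theorem top_254 : top 254 = true := by decide +kernel
theorem top_255 : top 255 = true := by decide +kernel

theorem chunk16 : ∀ w ∈ [224, 225, 226, 227, 228, 229, 230, 231, 232, 233, 234, 235, 236, 237, 238, 239, 240, 241, 242, 243, 244, 245, 246, 247, 248, 249, 250, 251, 252, 253, 254, 255], top w = true := by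
  intro w hw
  simp only [List.mem_cons, List.not_mem_nil, or_false] at hw
  rcases hw with rfl | rfl | rfl | rfl | rfl | rfl | rfl | rfl | rfl | rfl | rfl | rfl | rfl | rfl | rfl | rfl | rfl | rfl | rfl | rfl | rfl | rfl | rfl | rfl | rfl | rfl | rfl | rfl | rfl | rfl | rfl | rfl
  · exact top_224
  · exact top_225
  · exact top_226
  · exact top_227
  · exact top_228
  · exact top_229
  · exact top_230
  · exact top_231
  · exact top_232
  · exact top_233
  · exact top_234
  · exact top_235
  · exact top_236
  · exact top_237
  · exact top_238
  · exact top_239
  · exact top_240
  · exact top_241
  · exact top_242
  · exact top_243
  · exact top_244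
  · exact top_245
  · exact top_246
  · exact top_247
  · exact top_248
  · exact top_249
  · exact top_250
  · exact top_251
  · exact top_252
  · exact top_253
  · exact top_254
  · exact top_255

end H863Z.PS
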