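import Pool.Agent.H863Z.PS.Chunk0

namespace H863Z.PS

theorem top_11 : top 11 = true := by decide +kernel
theorem top_12 : top 12 = true := by decide +kernel
theorem top_13 : top 13 = true := by decide +kernel
theorem top_14 : top 14 = true := by decide +kernel
theorem top_15 : top 15 = true := by decide +kernel

theorem chunk2 : ∀ w ∈ [11, 12, 13, 14, 15], top w = true := by
  intro w hw
  simp only [List.mem_cons, List.not_mem_nil, or_false] at hw
  rcases hw with rfl | rfl | rfl | rfl | rfl
  · exact top_11
  · exact top_12
  · exact top_13
  · exact top_14
  · exact top_15

end H863Z.PS
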