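import Pool.Agent.H863Z.PS.Chunk1

namespace H863Z.PS

theorem top_16 : top 16 = true := by decide +kernel
theorem top_17 : top 17 = true := by decide +kernel
theorem top_18 : top 18 = true := by decide +kernel
theorem top_19 : top 19 = true := by decide +kernel
theorem top_20 : top 20 = true := by decide +kernel
theorem top_21 : top 21 = true := by decide +kernel

theorem chunk3 : ∀ w ∈ [16, 17, 18, 19, 20, 21], top w = true := by
  intro w hw
  simp only [List.mem_cons, List.not_mem_nil, or_false] at hw
  rcases hw with rfl | rfl | rfl | rfl | rfl | rfl
  · exact top_16
  · exact top_17
  · exact top_18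
  · exact top_19
  · exact top_20
  · exact top_21

end H863Z.PS
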