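import Pool.Agent.H863Z.PS.Chunk2

namespace H863Z.PS

theorem top_22 : top 22 = true := by decide +kernel
theorem top_23 : top 23 = true := by decide +kernel
theorem top_24 : top 24 = true := by decide +kernel
theorem top_25 : top 25 = true := by decide +kernel
theorem top_26 : top 26 = true := by decide +kernel
theorem top_27 : top 27 = true := by decide +kernel

theorem chunk4 : ∀ w ∈ [22, 23, 24, 25, 26, 27], top w = true := by
  intro w hw
  simp only [List.mem_cons, List.not_mem_nil, or_false] at hw
  rcases hw with rfl | rfl | rfl | rfl | rfl | rfl
  · exact top_22
  · exact top_23
  · exact top_24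
  · exact top_25
  · exact top_26
  · exact top_27

end H863Z.PS
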