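import Pool.Agent.H863Z.PS.Chunk3

namespace H863Z.PS

theorem top_28 : top 28 = true := by decide +kernel
theorem top_29 : top 29 = true := by decide +kernel
theorem top_30 : top 30 = true := by decide +kernel
theorem top_31 : top 31 = true := by decide +kernel
theorem top_32 : top 32 = true := by decide +kernel
theorem top_33 : top 33 = true := by decide +kernel
theorem top_34 : top 34 = true := by decide +kernel

theorem chunk5 : ∀ w ∈ [28, 29, 30, 31, 32, 33, 34], top w = true := by
  intro w hw
  simp only [List.mem_cons, List.not_mem_nil, or_false] at hw
  rcases hw with rfl | rfl | rfl | rfl | rfl | rfl | rfl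
  · exact top_28
  · exact top_29
  · exact top_30
  · exact top_31
  · exact top_32
  · exact top_33
  · exact top_34

end H863Z.PS
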