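import Pool.Agent.H863Z.PS.Chunk4

namespace H863Z.PS

theorem top_35 : top 35 = true := by decide +kernel
theorem top_36 : top 36 = true := by decide +kernel
theorem top_37 : top 37 = true := by decide +kernel
theorem top_38 : top 38 = true := by decide +kernel
theorem top_39 : top 39 = true := by decide +kernel
theorem top_40 : top 40 = true := by decide +kernel
theorem top_41 : top 41 = true := by decide +kernel
theorem top_42 : top 42 = true := by decide +kernel

theorem chunk6 : ∀ w ∈ [35, 36, 37, 38, 39, 40, 41, 42], top w = true := by
  intro w hw
  simp only [List.mem_cons, List.not_mem_nil, or_false] at hw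
  rcases hw with rfl | rfl | rfl | rfl | rfl | rfl | rfl | rfl
  · exact top_35
  · exact top_36
  · exact top_37
  · exact top_38
  · exact top_39
  · exact top_40
  · exact top_41
  · exact top_42

end H863Z.PS
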