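import Pool.Agent.H863Z.PS.Chunk5

namespace H863Z.PS

theorem top_43 : top 43 = true := by decide +kernel
theorem top_44 : top 44 = true := by decide +kernel
theorem top_45 : top 45 = true := by decide +kernel
theorem top_46 : top 46 = true := by decide +kernel
theorem top_47 : top 47 = true := by decide +kernel
theorem top_48 : top 48 = true := by decide +kernel
theorem top_49 : top 49 = true := by decide +kernel
theorem top_50 : top 50 = true := by decide +kernel
theorem top_51 : top 51 = true := by decide +kernel

theorem chunk7 : ∀ w ∈ [43, 44, 45, 46, 47, 48, 49, 50, 51], top w = true := by
  intro w hw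
  simp only [List.mem_cons, List.not_mem_nil, or_false] at hw
  rcases hw with rfl | rfl | rfl | rfl | rfl | rfl | rfl | rfl | rfl
  · exact top_43
  · exact top_44
  · exact top_45
  · exact top_46
  · exact top_47
  · exact top_48
  · exact top_49
  · exact top_50
  · exact top_51

end H863Z.PS
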