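import Pool.Agent.H863Z.PS.Chunk6

namespace H863Z.PS

theorem top_52 : top 52 = true := by decide +kernel
theorem top_53 : top 53 = true := by decide +kernel
theorem top_54 : top 54 = true := by decide +kernel
theorem top_55 : top 55 = true := by decide +kernel
theorem top_56 : top 56 = true := by decide +kernel
theorem top_57 : top 57 = true := by decide +kernel
theorem top_58 : top 58 = true := by decide +kernel
theorem top_59 : top 59 = true := by decide +kernel
theorem top_60 : top 60 = true := by decide +kernel
theorem top_61 : top 61 = true := by decide +kernel

theorem chunk8 : ∀ w ∈ [52, 53, 54, 55, 56, 57, 58, 59, 60, 61], top w = true := by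
  intro w hw
  simp only [List.mem_cons, List.not_mem_nil, or_false] at hw
  rcases hw with rfl | rfl | rfl | rfl | rfl | rfl | rfl | rfl | rfl | rfl
  · exact top_52
  · exact top_53
  · exact top_54
  · exact top_55
  · exact top_56
  · exact top_57
  · exact top_58
  · exact top_59
  · exact top_60
  · exact top_61

end H863Z.PS
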