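import Pool.Agent.H863Z.PS.Chunk7

namespace H863Z.PS

theorem top_62 : top 62 = true := by decide +kernel
theorem top_63 : top 63 = true := by decide +kernel
theorem top_64 : top 64 = true := by decide +kernel
theorem top_65 : top 65 = true := by decide +kernel
theorem top_66 : top 66 = true := by decide +kernel
theorem top_67 : top 67 = true := by decide +kernel
theorem top_68 : top 68 = true := by decide +kernel
theorem top_69 : top 69 = true := by decide +kernel
theorem top_70 : top 70 = true := by decide +kernel
theorem top_71 : top 71 = true := by decide +kernel
theorem top_72 : top 72 = true := by decide +kernel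
theorem top_73 : top 73 = true := by decide +kernel

theorem chunk9 : ∀ w ∈ [62, 63, 64, 65, 66, 67, 68, 69, 70, 71, 72, 73], top w = true := by
  intro w hw
  simp only [List.mem_cons, List.not_mem_nil, or_false] at hw
  rcases hw with rfl | rfl | rfl | rfl | rfl | rfl | rfl | rfl | rfl | rfl | rfl | rfl
  · exact top_62
  · exact top_63
  · exact top_64
  · exact top_65
  · exact top_66
  · exact top_67
  · exact top_68
  · exact top_69
  · exact top_70
  · exact top_71
  · exact top_72
  · exact top_73

end H863Z.PS
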