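import Mathlib

namespace H863Z.PS

/-- The vector space `F_2^n`. -/
abbrev Vec (n : ℕ) : Type := Fin n → ZMod 2

/-- The standard inner product of `F_2^n`. -/
def dot {n : ℕ} (x y : Vec n) : ZMod 2 := ∑ i, x i * y i

/-- `f` is weakly normal: it is affine on some `k`-dimensional flat `c + V` of `F_2^(2k)`. -/
def IsWeaklyNormal {k : ℕ} (f : Vec (2 * k) → ZMod 2) : Prop :=
  ∃ (V : Submodule (ZMod 2) (Vec (2 * k))) (c a : Vec (2 * k)) (b : ZMod 2),
    Module.finrank (ZMod 2) V = k ∧ ∀ v ∈ V, f (c + v) = dot a (c + v) + b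

/-- `f` belongs to the class `PS^-` of partial spread functions of minus type in `2k` variables:
there are `2^(k-1)` subspaces of dimension `k`, pairwise meeting only in `0`, such that
`f x = 1` exactly for the nonzero vectors in their union. -/
def IsPSMinus {k : ℕ} (f : Vec (2 * k) → ZMod 2) : Prop :=
  ∃ E : Fin (2 ^ (k - 1)) → Submodule (ZMod 2) (Vec (2 * k)),
    (∀ i, Module.finrank (ZMod 2) (E i) = k) ∧
    (∀ i j, i ≠ j → E i ⊓ E j = ⊥) ∧
    ∀ x, f x = 1 ↔ ∃ i, x ∈ E i ∧ x ≠ 0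

end H863Z.PS
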