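import Pool.Agent.H863Z.PS.Swar

namespace H863Z.PS

/-- the mask `S` contains a `k`-dimensional flat of `F_2^n` whose nonzero directions are `≥ 2^h` -/
def Flat (n k h S : ℕ) : Prop :=
  ∃ (M : Finset ℕ) (c : ℕ), 0 ∈ M ∧ (∀ a ∈ M, ∀ b ∈ M, a ^^^ b ∈ M) ∧ M.card = 2 ^ k ∧
    (∀ a ∈ M, a < 2 ^ n) ∧ (∀ a ∈ M, a ≠ 0 → 2 ^ h ≤ a) ∧ c < 2 ^ n ∧
    ∀ a ∈ M, S.testBit (c ^^^ a) = true

/-- the half of a flat left after splitting off the smallest direction `w` -/
def Pre (n k t w S : ℕ) : Prop :=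
  ∃ (M : Finset ℕ) (c : ℕ), 0 ∈ M ∧ (∀ a ∈ M, ∀ b ∈ M, a ^^^ b ∈ M) ∧ M.card = 2 ^ k ∧
    (∀ a ∈ M, a < 2 ^ n) ∧ (∀ a ∈ M, a ≠ 0 → 2 ^ (t + 1) ≤ a) ∧ (∀ a ∈ M, a.testBit t = false) ∧
    c < 2 ^ n ∧ c.testBit t = false ∧
    ∀ a ∈ M, S.testBit (c ^^^ a) = true ∧ S.testBit ((c ^^^ a) ^^^ w) = true

lemma flat_pre {n k h S : ℕ} (hF : Flat n (k + 1) h S) :
    ∃ t w, h ≤ t ∧ 2 ^ t ≤ w ∧ w < 2 ^ (t + 1) ∧ t < n ∧ Pre n k t w S := by
  classical
  obtain ⟨M, c, h0, hcl, hcard, hlt, hge, hc, hS⟩ := hF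
  have hne : (M.erase 0).Nonempty := by
    rw [← Finset.card_pos, Finset.card_erase_of_mem h0, hcard, pow_succ]
    have : 0 < 2 ^ k := by positivity
    omega
  set w := (M.erase 0).min' hne with hw
  have hwm : w ∈ M.erase 0 := Finset.min'_mem _ _
  have hw0 : w ≠ 0 := (Finset.mem_erase.mp hwm).1
  have hwM : w ∈ M := (Finset.mem_erase.mp hwm).2
  have hmin : ∀ a ∈ M, a ≠ 0 → w ≤ a := fun a ha ha0 =>
    Finset.min'_le _ _ (Finset.mem_erase.mpr ⟨ha0, ha⟩)
  set t := Nat.log2 w with ht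
  have h1 : 2 ^ t ≤ w := Nat.log2_self_le hw0
  have h2 : w < 2 ^ (t + 1) := Nat.lt_log2_self
  have hwt : w.testBit t = true := Nat.testBit_log2 hw0
  refine ⟨t, w, (Nat.le_log2 hw0).mpr (hge w hwM hw0), h1, h2,
    (Nat.log2_lt hw0).mpr (hlt w hwM), ?_⟩
  set M' := M.filter (fun a => a.testBit t = false) with hM'
  have hcard' : M'.card = 2 ^ k := by
    have e1 := Finset.card_filter_add_card_filter_not (s := M) (fun a => a.testBit t = false)
    have e2 : (M.filter (fun a => ¬ a.testBit t = false)).card = M'.card := by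
      apply Finset.card_bij (fun a _ => a ^^^ w)
      · intro a ha
        rw [Finset.mem_filter] at ha ⊢
        refine ⟨hcl a ha.1 w hwM, ?_⟩
        have : a.testBit t = true := by simpa using ha.2
        rw [Nat.testBit_xor, this, hwt]; rfl
      · intro a _ b _ hab
        exact Nat.xor_left_injective hab
      · intro b hb
        rw [Finset.mem_filter] at hb
        refine ⟨b ^^^ w, ?_, by rw [Nat.xor_assoc, Nat.xor_self, Nat.xor_zero]⟩
        rw [Finset.mem_filter]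
        refine ⟨hcl b hb.1 w hwM, ?_⟩
        rw [Nat.testBit_xor, hb.2, hwt]; simp
    rw [e2, hcard, pow_succ, ← hM'] at e1
    omega
  have hsub : ∀ a ∈ M', a ∈ M ∧ a.testBit t = false := fun a ha => Finset.mem_filter.mp ha
  have hge' : ∀ a ∈ M', a ≠ 0 → 2 ^ (t + 1) ≤ a := by
    intro a ha ha0
    by_contra hc
    have h3 := hmin a (hsub a ha).1 ha0
    have h4 := testBit_half (t := t) (j := a) (by omega)
    rw [(hsub a ha).2] at h4
    have : 2 ^ t ≤ a := by omega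
    simp [this] at h4
  have hcl' : ∀ a ∈ M', ∀ b ∈ M', a ^^^ b ∈ M' := by
    intro a ha b hb
    rw [Finset.mem_filter]
    refine ⟨hcl a (hsub a ha).1 b (hsub b hb).1, ?_⟩
    rw [Nat.testBit_xor, (hsub a ha).2, (hsub b hb).2]; rfl
  have h0' : 0 ∈ M' := by rw [Finset.mem_filter]; exact ⟨h0, by simp⟩
  cases hct : c.testBit t
  · refine ⟨M', c, h0', hcl', hcard', fun a ha => hlt a (hsub a ha).1, hge',
      fun a ha => (hsub a ha).2, hc, hct, fun a ha => ⟨hS a (hsub a ha).1, ?_⟩⟩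
    rw [Nat.xor_assoc]
    exact hS _ (hcl a (hsub a ha).1 w hwM)
  · refine ⟨M', c ^^^ w, h0', hcl', hcard', fun a ha => hlt a (hsub a ha).1, hge',
      fun a ha => (hsub a ha).2, Nat.xor_lt_two_pow hc (hlt w hwM), ?_, fun a ha => ⟨?_, ?_⟩⟩
    · rw [Nat.testBit_xor, hct, hwt]; rfl
    · rw [Nat.xor_assoc]
      exact hS _ (hcl w hwM a (hsub a ha).1)
    · rw [Nat.xor_assoc, Nat.xor_assoc, Nat.xor_comm a w, ← Nat.xor_assoc w w a, Nat.xor_self,
        Nat.zero_xor]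
      exact hS a (hsub a ha).1

lemma pre_blocks {n k t w S : ℕ} (ht : t < n) (hP : Pre n k t w S) :
    ∃ I : Finset ℕ, I.card = 2 ^ k ∧ (∀ i ∈ I, i < 2 ^ (n - 1 - t)) ∧
      ∀ i ∈ I, ∃ j < 2 ^ (t + 1), 2 ^ (t + 1) * i + j < 2 ^ n ∧
        (2 ^ (t + 1) * i + j).testBit t = false ∧ S.testBit (2 ^ (t + 1) * i + j) = true ∧
        S.testBit ((2 ^ (t + 1) * i + j) ^^^ w) = true := by
  classical
  obtain ⟨M, c, h0, hcl, hcard, hlt, hge, hbt, hc, hct, hS⟩ := hP
  refine ⟨M.image (fun a => (c ^^^ a) / 2 ^ (t + 1)), ?_, ?_, ?_⟩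
  · rw [Finset.card_image_of_injOn, hcard]
    intro a ha b hb hab
    by_contra hne
    have h1 : a ^^^ b ≠ 0 := fun h => hne (Nat.eq_of_xor_eq_zero h)
    have h2 := hge _ (hcl a ha b hb) h1
    have h3 : (a ^^^ b) / 2 ^ (t + 1) = 0 := by
      have e : a ^^^ b = (c ^^^ a) ^^^ (c ^^^ b) := by
        rw [Nat.xor_assoc, Nat.xor_comm a (c ^^^ b), ← Nat.xor_assoc, ← Nat.xor_assoc, Nat.xor_self,
          Nat.zero_xor, Nat.xor_comm]
      have hab' : (c ^^^ a) / 2 ^ (t + 1) = (c ^^^ b) / 2 ^ (t + 1) := hab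
      rw [e, Nat.xor_div_two_pow, hab', Nat.xor_self]
    rw [Nat.div_eq_zero_iff] at h3
    have : 0 < 2 ^ (t + 1) := by positivity
    omega
  · intro i hi
    obtain ⟨a, ha, rfl⟩ := Finset.mem_image.mp hi
    rw [Nat.div_lt_iff_lt_mul (by positivity), ← pow_add, show n - 1 - t + (t + 1) = n by omega]
    exact Nat.xor_lt_two_pow hc (hlt a ha)
  · intro i hi
    obtain ⟨a, ha, rfl⟩ := Finset.mem_image.mp hi
    refine ⟨(c ^^^ a) % 2 ^ (t + 1), Nat.mod_lt _ (by positivity), ?_⟩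
    rw [Nat.div_add_mod]
    refine ⟨Nat.xor_lt_two_pow hc (hlt a ha), ?_, hS a ha⟩
    rw [Nat.testBit_xor, hct, hbt a ha]; rfl

lemma del_lt {t x n : ℕ} (ht : t ≤ n) (hx : x < 2 ^ (n + 1)) : del t x < 2 ^ n := by
  apply Nat.lt_pow_two_of_testBit
  intro j hj
  rw [del_testBit, if_neg (by omega)]
  exact Nat.testBit_lt_two_pow (lt_of_lt_of_le hx (Nat.pow_le_pow_right (by norm_num) (by omega)))

lemma pre_flat {n k t w S y : ℕ} (ht : t ≤ n) (hn : n ≤ 18) (hP : Pre (n + 1) k t w S)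
    (hy : ∀ x < 2 ^ (n + 1), x.testBit t = false → S.testBit x = true →
      S.testBit (x ^^^ w) = true → y.testBit x = true) :
    Flat n k t (cmp t y (n - t)) := by
  classical
  obtain ⟨M, c, h0, hcl, hcard, hlt, hge, hbt, hc, hct, hS⟩ := hP
  refine ⟨M.image (del t), del t c, ?_, ?_, ?_, ?_, ?_, del_lt ht hc, ?_⟩
  · exact Finset.mem_image.mpr ⟨0, h0, by simp [del]⟩
  · intro a' ha' b' hb'
    obtain ⟨a, ha, rfl⟩ := Finset.mem_image.mp ha'
    obtain ⟨b, hb, rfl⟩ := Finset.mem_image.mp hb'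
    exact Finset.mem_image.mpr ⟨a ^^^ b, hcl a ha b hb, del_xor t a b⟩
  · rw [Finset.card_image_of_injOn, hcard]
    intro a ha b hb hab
    rw [← ins_del (hbt a ha), ← ins_del (hbt b hb), hab]
  · intro a' ha'
    obtain ⟨a, ha, rfl⟩ := Finset.mem_image.mp ha'
    exact del_lt ht (hlt a ha)
  · intro a' ha' ha0
    obtain ⟨a, ha, rfl⟩ := Finset.mem_image.mp ha'
    have h1 : a ≠ 0 := by
      rintro rfl
      exact ha0 (by simp [del])
    have h2 : 1 ≤ a / 2 ^ (t + 1) := by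
      rw [Nat.le_div_iff_mul_le (by positivity), one_mul]; exact hge a ha h1
    unfold del
    have := Nat.mul_le_mul_left (2 ^ t) h2
    omega
  · intro a' ha'
    obtain ⟨a, ha, rfl⟩ := Finset.mem_image.mp ha'
    have hx : c ^^^ a < 2 ^ (n + 1) := Nat.xor_lt_two_pow hc (hlt a ha)
    have hb : (c ^^^ a).testBit t = false := by rw [Nat.testBit_xor, hct, hbt a ha]; rfl
    rw [← del_xor]
    have h1 := cmp_of (t := t) (y := y) (d := n - t) (x := del t (c ^^^ a)) hn (by omega)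
      (del_lt ht hx) (by rw [ins_del hb]; exact hy _ hx hb (hS a ha).1 (hS a ha).2)
    rwa [show t + (n - t) = n by omega, ins_top (del_lt ht hx)] at h1

lemma pre_le {n k t w S : ℕ} (ht : t < n) (hP : Pre n k t w S) : t + k + 1 ≤ n := by
  obtain ⟨I, hI, hlt, -⟩ := pre_blocks ht hP
  have : I.card ≤ (Finset.range (2 ^ (n - 1 - t))).card :=
    Finset.card_le_card fun i hi => Finset.mem_range.mpr (hlt i hi)
  rw [hI, Finset.card_range, Nat.pow_le_pow_iff_right (by norm_num)] at this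
  omega

lemma split_top {t w : ℕ} (h1 : 2 ^ t ≤ w) (h2 : w < 2 ^ (t + 1)) :
    w - 2 ^ t < 2 ^ t ∧ (w - 2 ^ t) ^^^ 2 ^ t = w := by
  have h3 : w - 2 ^ t < 2 ^ t := by rw [pow_succ] at h2; omega
  refine ⟨h3, ?_⟩
  rw [xor_two_pow_of_false (Nat.testBit_lt_two_pow h3)]; omega

lemma search_sound (k : ℕ) (hk : k ≤ 5) : ∀ h S, search k h S = true → ¬ Flat (k + 7) k h S := by
  induction k with
  | zero =>
    intro h S hs ⟨M, c, h0, _, _, _, _, _, hS⟩
    have : S = 0 := Nat.eq_of_beq_eq_true hs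
    subst this
    simpa using hS 0 h0
  | succ k ih =>
    intro h S hs hF
    obtain ⟨t, w, hht, h1, h2, htn, hP⟩ := flat_pre hF
    have ht7 := pre_le htn hP
    have hr : rng (step (search k) k S) h (8 - h) = true := hs
    have hst := rng_spec hr t hht (by omega)
    obtain ⟨hu, hue⟩ := split_top h1 h2
    set u := w - 2 ^ t with hudef
    set Y := (rep S (k + 8) t &&& dbl (k + 8) (swp t S) t) &&& mkR t (k + 8 - 1) with hYdef
    have hst' : slots (fun y => search k t (cmp t y (k + 7 - t))) (k + 8) t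
        (Bool.rec (rep 1 (k + 8) t) (alv (k + 8) t k Y) (Nat.ble 3 t)) Y = true := hst
    have hY : ∀ x < 2 ^ (k + 8), x.testBit t = false → S.testBit x = true →
        S.testBit (x ^^^ w) = true → Y.testBit (u * 2 ^ (k + 8) + x) = true := by
      intro x hx hb hS1 hS2
      rw [hYdef, Nat.testBit_and, Nat.testBit_and, rep_of hu hS1, dbl_of (by omega) (by omega) hu hx,
        mkR_testBit]
      · have h3 : u * 2 ^ (k + 8) + x < 2 ^ (t + 1 + (k + 8 - 1)) := by
          have h5 : (u + 1) * 2 ^ (k + 8) ≤ 2 ^ t * 2 ^ (k + 8) := Nat.mul_le_mul_right _ hu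
          rw [show t + 1 + (k + 8 - 1) = t + (k + 8) by omega, pow_add 2 t]; nlinarith
        have h4 : (u * 2 ^ (k + 8) + x).testBit t = false := by
          rw [mul_comm, Nat.testBit_two_pow_mul_add _ hx, if_pos (by omega), hb]
        rw [h4, decide_eq_true h3]; rfl
      · apply swp_of (by omega)
        · apply Nat.xor_lt_two_pow
          · exact lt_of_lt_of_le hx (Nat.pow_le_pow_right (by norm_num) (by omega))
          · exact lt_of_lt_of_le hu (Nat.pow_le_pow_right (by norm_num) (by omega))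
        · rw [Nat.xor_assoc, hue]; exact hS2
    have hD : ∃ j < 2 ^ (k + 8), (Bool.rec (rep 1 (k + 8) t) (alv (k + 8) t k Y) (Nat.ble 3 t) : ℕ).testBit
        (u * 2 ^ (k + 8) + j) = true := by
      cases hb : Nat.ble 3 t
      · exact ⟨0, by positivity, rep_of hu (by decide)⟩
      · have h3 : 3 ≤ t := Nat.le_of_ble_eq_true hb
        obtain ⟨I, hI, hIlt, hIb⟩ := pre_blocks htn hP
        apply alv_of h3 (by omega) (by omega) hu _ I hI.ge hIlt
        · intro i hi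
          obtain ⟨j, hj, hx, hb, hS1, hS2⟩ := hIb i hi
          exact ⟨j, hj, hY _ hx hb hS1 hS2⟩
        · intro x hx
          rw [hYdef, Nat.testBit_and, Bool.and_eq_true] at hx
          exact hx.2
    obtain ⟨y, hy, hn⟩ := slots_spec hst' u hu hD
    apply ih (by omega) t _ hn
    apply pre_flat (by omega) (by omega) hP
    intro x hx hb hS1 hS2
    exact hy x hx (hY x hx hb hS1 hS2)

lemma no_flat (htop : ∀ w, 0 < w → w < 256 → top w = true) : ¬ Flat 13 6 0 gM := by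
  intro hF
  obtain ⟨t, w, -, h1, h2, htn, hP⟩ := flat_pre hF
  have ht7 := pre_le htn hP
  have hw0 : 0 < w := lt_of_lt_of_le (by positivity) h1
  have hw : w < 2 ^ 8 := lt_of_lt_of_le h2 (Nat.pow_le_pow_right (by norm_num) (by omega))
  have hlog : Nat.log2 w = t := (Nat.log2_eq_iff (by omega)).mpr ⟨h1, h2⟩
  have hs : search 5 (Nat.log2 w) (cmp (Nat.log2 w)
    ((gM &&& mk (Nat.log2 w)) &&& trn w gM 8) (12 - Nat.log2 w)) = true := htop w hw0 hw
  rw [hlog] at hs
  apply search_sound 5 le_rfl t _ hs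
  apply pre_flat (by omega) (by omega) hP
  intro x hx hb hS1 hS2
  have hx' : x < 2 ^ 19 := lt_of_lt_of_le hx (by norm_num)
  rw [Nat.testBit_and, Nat.testBit_and, hS1, mk_testBit (by omega) hx', hb,
    trn_of (by omega) hx' (by rwa [Nat.mod_eq_of_lt hw])]
  rfl

end H863Z.PS
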