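import Pool.Agent.H863Z.PS.Defs
import Pool.Agent.H863Z.PS.Flat
import Pool.Agent.H863Z.PS.Els
import Pool.Agent.H863Z.PS.Chunk15
import Pool.Agent.H863Z.PS.Chunk16

namespace H863Z.PS

lemma all_top : ∀ w, 0 < w → w < 256 → top w = true := by
  intro w h0 h1
  by_cases c0 : w < 6
  · have h : ∀ w < 6, 1 ≤ w → w ∈ [1, 2, 3, 4, 5] := by decide +kernel
    exact chunk0 w (h w c0 (by omega))
  by_cases c1 : w < 11
  · have h : ∀ w < 11, 6 ≤ w → w ∈ [6, 7, 8, 9, 10] := by decide +kernel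
    exact chunk1 w (h w c1 (by omega))
  by_cases c2 : w < 16
  · have h : ∀ w < 16, 11 ≤ w → w ∈ [11, 12, 13, 14, 15] := by decide +kernel
    exact chunk2 w (h w c2 (by omega))
  by_cases c3 : w < 22
  · have h : ∀ w < 22, 16 ≤ w → w ∈ [16, 17, 18, 19, 20, 21] := by decide +kernel
    exact chunk3 w (h w c3 (by omega))
  by_cases c4 : w < 28
  · have h : ∀ w < 28, 22 ≤ w → w ∈ [22, 23, 24, 25, 26, 27] := by decide +kernel
    exact chunk4 w (h w c4 (by omega))
  by_cases c5 : w < 35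
  · have h : ∀ w < 35, 28 ≤ w → w ∈ [28, 29, 30, 31, 32, 33, 34] := by decide +kernel
    exact chunk5 w (h w c5 (by omega))
  by_cases c6 : w < 43
  · have h : ∀ w < 43, 35 ≤ w → w ∈ [35, 36, 37, 38, 39, 40, 41, 42] := by decide +kernel
    exact chunk6 w (h w c6 (by omega))
  by_cases c7 : w < 52
  · have h : ∀ w < 52, 43 ≤ w → w ∈ [43, 44, 45, 46, 47, 48, 49, 50, 51] := by decide +kernel
    exact chunk7 w (h w c7 (by omega))
  by_cases c8 : w < 62
  · have h : ∀ w < 62, 52 ≤ w → w ∈ [52, 53, 54, 55, 56, 57, 58, 59, 60, 61] := by decide +kernel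
    exact chunk8 w (h w c8 (by omega))
  by_cases c9 : w < 74
  · have h : ∀ w < 74, 62 ≤ w → w ∈ [62, 63, 64, 65, 66, 67, 68, 69, 70, 71, 72, 73] := by decide +kernel
    exact chunk9 w (h w c9 (by omega))
  by_cases c10 : w < 88
  · have h : ∀ w < 88, 74 ≤ w → w ∈ [74, 75, 76, 77, 78, 79, 80, 81, 82, 83, 84, 85, 86, 87] := by decide +kernel
    exact chunk10 w (h w c10 (by omega))
  by_cases c11 : w < 106
  · have h : ∀ w < 106, 88 ≤ w → w ∈ [88, 89, 90, 91, 92, 93, 94, 95, 96, 97, 98, 99, 100, 101, 102, 103, 104, 105] := by decide +kernel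
    exact chunk11 w (h w c11 (by omega))
  by_cases c12 : w < 128
  · have h : ∀ w < 128, 106 ≤ w → w ∈ [106, 107, 108, 109, 110, 111, 112, 113, 114, 115, 116, 117, 118, 119, 120, 121, 122, 123, 124, 125, 126, 127] := by decide +kernel
    exact chunk12 w (h w c12 (by omega))
  by_cases c13 : w < 160
  · have h : ∀ w < 160, 128 ≤ w → w ∈ [128, 129, 130, 131, 132, 133, 134, 135, 136, 137, 138, 139, 140, 141, 142, 143, 144, 145, 146, 147, 148, 149, 150, 151, 152, 153, 154, 155, 156, 157, 158, 159] := by decide +kernel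
    exact chunk13 w (h w c13 (by omega))
  by_cases c14 : w < 192
  · have h : ∀ w < 192, 160 ≤ w → w ∈ [160, 161, 162, 163, 164, 165, 166, 167, 168, 169, 170, 171, 172, 173, 174, 175, 176, 177, 178, 179, 180, 181, 182, 183, 184, 185, 186, 187, 188, 189, 190, 191] := by decide +kernel
    exact chunk14 w (h w c14 (by omega))
  by_cases c15 : w < 224
  · have h : ∀ w < 224, 192 ≤ w → w ∈ [192, 193, 194, 195, 196, 197, 198, 199, 200, 201, 202, 203, 204, 205, 206, 207, 208, 209, 210, 211, 212, 213, 214, 215, 216, 217, 218, 219, 220, 221, 222, 223] := by decide +kernel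
    exact chunk15 w (h w c15 (by omega))
  by_cases c16 : w < 256
  · have h : ∀ w < 256, 224 ≤ w → w ∈ [224, 225, 226, 227, 228, 229, 230, 231, 232, 233, 234, 235, 236, 237, 238, 239, 240, 241, 242, 243, 244, 245, 246, 247, 248, 249, 250, 251, 252, 253, 254, 255] := by decide +kernel
    exact chunk16 w (h w c16 (by omega))
  omega

def dec (n : ℕ) : Vec (2 * 6) := fun i => if n.testBit i then 1 else 0

lemma dec_xor (a b : ℕ) : dec (a ^^^ b) = dec a + dec b := by
  funext i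
  simp only [dec, Pi.add_apply, Nat.testBit_xor]
  cases a.testBit i <;> cases b.testBit i <;> decide

lemma dec_zero : dec 0 = 0 := by
  funext i
  simp [dec]

lemma dec_inj {a b : ℕ} (ha : a < 2 ^ 12) (hb : b < 2 ^ 12) (h : dec a = dec b) : a = b := by
  apply Nat.eq_of_testBit_eq
  intro i
  by_cases hi : i < 12
  · have := congrFun h ⟨i, hi⟩
    simp only [dec] at this
    revert this
    cases a.testBit i <;> cases b.testBit i <;> simp
  · push Not at hi
    rw [Nat.testBit_lt_two_pow (lt_of_lt_of_le ha (Nat.pow_le_pow_right (by norm_num) hi)),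
      Nat.testBit_lt_two_pow (lt_of_lt_of_le hb (Nat.pow_le_pow_right (by norm_num) hi))]

lemma dec_surj (x : Vec (2 * 6)) : ∃ n < 2 ^ 12, dec n = x := by
  have hb : Function.Bijective (fun n : Fin (2 ^ 12) => dec n) := by
    rw [Fintype.bijective_iff_injective_and_card]
    constructor
    · intro a b h
      exact Fin.ext (dec_inj a.2 b.2 h)
    · rw [Fintype.card_fin, Fintype.card_fun, ZMod.card, Fintype.card_fin]
  obtain ⟨n, hn⟩ := hb.2 x
  exact ⟨n, n.2, hn⟩

def maskOf : List ℕ → ℕ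
  | [] => 0
  | a :: l => Nat.lor (Nat.pow 2 a) (maskOf l)

lemma maskOf_spec (l : List ℕ) (x : ℕ) : (maskOf l).testBit x = true ↔ x ∈ l := by
  induction l with
  | nil => simp [maskOf]
  | cons a l ih =>
    change ((2 ^ a) ||| maskOf l).testBit x = true ↔ _
    rw [Nat.testBit_or, Bool.or_eq_true, ih, Nat.testBit_two_pow, List.mem_cons]
    simp [eq_comm]

def el (i : ℕ) : List ℕ := els.getD i []
def em (i : ℕ) : ℕ := maskOf (el i)
def orAll : ℕ → ℕ
  | 0 => 0
  | n + 1 => Nat.lor (em n) (orAll n)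

lemma orAll_spec (n x : ℕ) : (orAll n).testBit x = true ↔ ∃ i < n, x ∈ el i := by
  induction n with
  | zero => simp [orAll]
  | succ n ih =>
    change (em n ||| orAll n).testBit x = true ↔ _
    rw [Nat.testBit_or, Bool.or_eq_true, ih, em, maskOf_spec]
    constructor
    · rintro (h | ⟨i, hi, h⟩)
      · exact ⟨n, by omega, h⟩
      · exact ⟨i, by omega, h⟩
    · rintro ⟨i, hi, h⟩
      by_cases hin : i = n
      · left; rwa [← hin]
      · right; exact ⟨i, by omega, h⟩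

lemma c_cl : ∀ i < 32, ((el i).all fun a => (el i).all fun b => bt (em i) (Nat.xor a b)) = true := by
  decide +kernel
lemma c_lt : ∀ i < 32, ((el i).all fun a => Nat.blt a 4096) = true := by decide +kernel
lemma c_zero : ∀ i < 32, 0 ∈ el i := by decide +kernel
lemma c_nodup : ∀ i < 32, (el i).Nodup := by decide +kernel
lemma c_len : ∀ i < 32, (el i).length = 64 := by decide +kernel
lemma c_disj : ∀ i < 32, ∀ j < 32, i ≠ j → Nat.land (em i) (em j) = 1 := by decide +kernel
lemma c_u : uM = Nat.xor (orAll 32) 1 := by decide +kernel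

lemma el_lt {i a : ℕ} (hi : i < 32) (ha : a ∈ el i) : a < 2 ^ 12 := by
  have := List.all_eq_true.mp (c_lt i hi) a ha
  rw [Nat.blt_eq] at this
  exact this

lemma el_xor {i a b : ℕ} (hi : i < 32) (ha : a ∈ el i) (hb : b ∈ el i) : a ^^^ b ∈ el i := by
  have := List.all_eq_true.mp (List.all_eq_true.mp (c_cl i hi) a ha) b hb
  rw [bt_eq] at this
  exact (maskOf_spec _ _).mp this

lemma fin32 (i : Fin (2 ^ (6 - 1))) : (i : ℕ) < 32 := i.2

/-- the subspaces of the partial spread -/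
def sub (i : Fin (2 ^ (6 - 1))) : Submodule (ZMod 2) (Vec (2 * 6)) where
  carrier := {v | ∃ a ∈ el i, dec a = v}
  add_mem' := by
    rintro _ _ ⟨a, ha, rfl⟩ ⟨b, hb, rfl⟩
    exact ⟨a ^^^ b, el_xor (fin32 i) ha hb, dec_xor a b⟩
  zero_mem' := ⟨0, c_zero i (fin32 i), dec_zero⟩
  smul_mem' := by
    rintro c _ ⟨a, ha, rfl⟩
    have hc : c = 0 ∨ c = 1 := by revert c; decide
    rcases hc with rfl | rfl
    · exact ⟨0, c_zero i (fin32 i), by rw [dec_zero, zero_smul]⟩
    · exact ⟨a, ha, by rw [one_smul]⟩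

lemma natCard_sub (V : Submodule (ZMod 2) (Vec (2 * 6))) :
    Nat.card V = 2 ^ Module.finrank (ZMod 2) V := by
  rw [Module.natCard_eq_pow_finrank (K := ZMod 2), Nat.card_zmod]

open Classical in
lemma card_filter (V : Submodule (ZMod 2) (Vec (2 * 6))) (N : ℕ) (hN : N = 2 ^ 12) :
    ((Finset.range N).filter (fun x => dec x ∈ V)).card = Nat.card V := by
  rw [← Fintype.card_coe, ← Nat.card_eq_fintype_card]
  apply Nat.card_congr
  refine Equiv.ofBijective (fun x => ⟨dec x.1, (Finset.mem_filter.mp x.2).2⟩) ⟨?_, ?_⟩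
  · intro x y h
    apply Subtype.ext
    have hx := Finset.mem_range.mp (Finset.mem_filter.mp x.2).1
    have hy := Finset.mem_range.mp (Finset.mem_filter.mp y.2).1
    exact dec_inj (hN ▸ hx) (hN ▸ hy) (congrArg Subtype.val h)
  · rintro ⟨v, hv⟩
    obtain ⟨n, hn, rfl⟩ := dec_surj v
    exact ⟨⟨n, Finset.mem_filter.mpr ⟨Finset.mem_range.mpr (hN ▸ hn), hv⟩⟩, rfl⟩

lemma mem_sub {i : Fin (2 ^ (6 - 1))} {x : ℕ} (hx : x < 2 ^ 12) : dec x ∈ sub i ↔ x ∈ el i := by
  constructor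
  · rintro ⟨a, ha, h⟩
    rwa [← dec_inj (el_lt (fin32 i) ha) hx h]
  · intro h
    exact ⟨x, h, rfl⟩

lemma finrank_sub (i : Fin (2 ^ (6 - 1))) : Module.finrank (ZMod 2) (sub i) = 6 := by
  classical
  obtain ⟨N, hN⟩ : ∃ N : ℕ, N = 2 ^ 12 := ⟨_, rfl⟩
  have h1 := card_filter (sub i) N hN
  have h2 : ∀ inst : DecidablePred (fun x => dec x ∈ sub i),
      (Finset.range N).filter (fun x => dec x ∈ sub i) = (el i).toFinset := by
    intro inst
    ext x
    rw [Finset.mem_filter, Finset.mem_range, List.mem_toFinset, hN]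
    constructor
    · rintro ⟨hx, h⟩
      exact (mem_sub hx).mp h
    · intro h
      exact ⟨el_lt (fin32 i) h, (mem_sub (el_lt (fin32 i) h)).mpr h⟩
  rw [h2, List.toFinset_card_of_nodup (c_nodup i (fin32 i)), c_len i (fin32 i), natCard_sub] at h1
  have h3 : (2 : ℕ) ^ 6 = 2 ^ Module.finrank (ZMod 2) (sub i) := h1
  exact (Nat.pow_right_injective (le_refl 2) h3).symm

lemma sub_disj (i j : Fin (2 ^ (6 - 1))) (hij : i ≠ j) : sub i ⊓ sub j = ⊥ := by
  rw [eq_bot_iff]
  intro v ⟨hi, hj⟩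
  obtain ⟨x, hx, rfl⟩ := dec_surj v
  have h1 := (maskOf_spec _ _).mpr ((mem_sub hx).mp hi)
  have h2 := (maskOf_spec _ _).mpr ((mem_sub hx).mp hj)
  have h3 : em i &&& em j = 1 := c_disj i (fin32 i) j (fin32 j) (fun h => hij (Fin.ext h))
  have h4 : (em i &&& em j).testBit x = true := by
    rw [Nat.testBit_and, em, em, h1, h2]; rfl
  rw [h3, Nat.testBit_one_eq_true_iff_self_eq_zero] at h4
  rw [h4, dec_zero]
  exact Submodule.zero_mem _

open Classical in
/-- the function of the partial spread -/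
noncomputable def psFun : Vec (2 * 6) → ZMod 2 :=
  fun x => if ∃ i, x ∈ sub i ∧ x ≠ 0 then 1 else 0

lemma psFun_spec (x : Vec (2 * 6)) : psFun x = 1 ↔ ∃ i, x ∈ sub i ∧ x ≠ 0 := by
  unfold psFun
  split_ifs with h
  · exact ⟨fun _ => h, fun _ => rfl⟩
  · exact ⟨fun h1 => absurd h1 (by decide), fun h2 => absurd h2 h⟩

lemma gM_aux (u N x : ℕ) : (Nat.lor (Nat.xor u (Nat.sub (Nat.pow 2 N) 1)) (Nat.shiftLeft u N)).testBit x
    = ((u.testBit x ^^ decide (x < N)) || (decide (x ≥ N) && u.testBit (x - N))) := by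
  change ((u ^^^ (2 ^ N - 1)) ||| (u <<< N)).testBit _ = _
  rw [Nat.testBit_or, Nat.testBit_xor, Nat.testBit_two_pow_sub_one, Nat.testBit_shiftLeft]

lemma xor_aux (u v x : ℕ) : (Nat.xor u v).testBit x = (u.testBit x ^^ v.testBit x) :=
  Nat.testBit_xor u v x

lemma psFun_dec {x : ℕ} (hx : x < 2 ^ 12) : psFun (dec x) = 1 ↔ uM.testBit x = true := by
  rw [psFun_spec, c_u, xor_aux]
  by_cases h0 : x = 0
  · subst h0
    have : (orAll 32).testBit 0 = true := (orAll_spec _ _).mpr ⟨0, by norm_num, c_zero 0 (by norm_num)⟩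
    rw [this, dec_zero]
    simp
  · have h1 : Nat.testBit 1 x = false := by
      cases hh : Nat.testBit 1 x
      · rfl
      · exact absurd (Nat.testBit_one_eq_true_iff_self_eq_zero.mp hh) h0
    rw [h1, Bool.xor_false, orAll_spec]
    constructor
    · rintro ⟨i, hi, -⟩
      exact ⟨i, fin32 i, (mem_sub hx).mp hi⟩
    · rintro ⟨i, hi, h⟩
      refine ⟨⟨i, hi⟩, (mem_sub hx).mpr h, fun h2 => h0 ?_⟩
      exact dec_inj hx (by positivity) (by rw [h2, dec_zero])

lemma gM_spec {x : ℕ} (hx : x < 2 ^ 12) :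
    gM.testBit (2 ^ 12 * (psFun (dec x)).val + x) = true := by
  unfold gM
  rw [gM_aux]
  have hc : ∀ c : ZMod 2, c = 0 ∨ c = 1 := by decide
  rcases hc (psFun (dec x)) with h | h
  · have h1 : uM.testBit x = false := by
      cases hh : uM.testBit x
      · rfl
      · rw [(psFun_dec hx).mpr hh] at h
        exact absurd h (by decide)
    have h2 : x < 4096 := hx
    rw [h, ZMod.val_zero, mul_zero, zero_add, h1, decide_eq_true h2]; rfl
  · have h1 := (psFun_dec hx).mp h
    have h2 : (1 : ZMod 2).val = 1 := rfl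
    rw [h, h2, show 2 ^ 12 * 1 + x - 4096 = x by omega, h1,
      decide_eq_true (show 2 ^ 12 * 1 + x ≥ 4096 by omega)]
    simp

lemma lift_xor {x y e e' : ℕ} (hx : x < 2 ^ 12) (hy : y < 2 ^ 12) :
    (2 ^ 12 * e + x) ^^^ (2 ^ 12 * e' + y) = 2 ^ 12 * (e ^^^ e') + (x ^^^ y) := by
  apply Nat.eq_of_testBit_eq
  intro j
  rw [Nat.testBit_xor, Nat.testBit_two_pow_mul_add _ hx, Nat.testBit_two_pow_mul_add _ hy,
    Nat.testBit_two_pow_mul_add _ (Nat.xor_lt_two_pow hx hy)]
  split_ifs <;> rw [Nat.testBit_xor]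

lemma val_xor (a b : ZMod 2) : a.val ^^^ b.val = (a + b).val := by revert a b; decide

lemma dot_add (a x y : Vec (2 * 6)) : dot a (x + y) = dot a x + dot a y := by
  simp [dot, mul_add, Finset.sum_add_distrib]

lemma lift_lt {x : ℕ} (hx : x < 2 ^ 12) (e : ZMod 2) : 2 ^ 12 * e.val + x < 2 ^ 13 := by
  have := ZMod.val_lt e
  omega

theorem not_weakly_normal : ¬ IsWeaklyNormal (k := 6) psFun := by
  classical
  rintro ⟨V, c, a, b, hV, hf⟩
  apply no_flat all_top
  obtain ⟨N, hN⟩ : ∃ N : ℕ, N = 2 ^ 12 := ⟨_, rfl⟩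
  obtain ⟨c0, hc0, rfl⟩ := dec_surj c
  have hcard := card_filter V N hN
  rw [natCard_sub, hV] at hcard
  have hmem : ∀ x, x ∈ (Finset.range N).filter (fun x => dec x ∈ V) ↔ x < 2 ^ 12 ∧ dec x ∈ V := by
    intro x
    rw [Finset.mem_filter, Finset.mem_range, hN]
  refine ⟨((Finset.range N).filter (fun x => dec x ∈ V)).image
    (fun x => 2 ^ 12 * (dot a (dec x)).val + x), 2 ^ 12 * (dot a (dec c0) + b).val + c0,
    ?_, ?_, ?_, ?_, ?_, lift_lt hc0 _, ?_⟩
  · refine Finset.mem_image.mpr ⟨0, (hmem 0).mpr ⟨by positivity, ?_⟩, ?_⟩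
    · rw [dec_zero]; exact V.zero_mem
    · rw [dec_zero]; simp [dot]
  · intro p hp q hq
    obtain ⟨x, hx, rfl⟩ := Finset.mem_image.mp hp
    obtain ⟨y, hy, rfl⟩ := Finset.mem_image.mp hq
    rw [hmem] at hx hy
    refine Finset.mem_image.mpr ⟨x ^^^ y, (hmem _).mpr ⟨Nat.xor_lt_two_pow hx.1 hy.1, ?_⟩, ?_⟩
    · rw [dec_xor]; exact V.add_mem hx.2 hy.2
    · rw [lift_xor hx.1 hy.1, val_xor, dec_xor, dot_add]
  · rw [Finset.card_image_of_injOn]
    · convert hcard
    · intro x hx y hy h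
      have hx' := ((hmem x).mp hx).1
      have hy' := ((hmem y).mp hy).1
      have h' : 2 ^ 12 * (dot a (dec x)).val + x = 2 ^ 12 * (dot a (dec y)).val + y := h
      omega
  · intro p hp
    obtain ⟨x, hx, rfl⟩ := Finset.mem_image.mp hp
    exact lift_lt ((hmem x).mp hx).1 _
  · intro p _ hp
    omega
  · intro p hp
    obtain ⟨x, hx, rfl⟩ := Finset.mem_image.mp hp
    rw [hmem] at hx
    rw [lift_xor hc0 hx.1, val_xor]
    have h1 := hf _ hx.2
    rw [dot_add, ← dec_xor] at h1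
    rw [add_right_comm, ← h1]
    exact gM_spec (Nat.xor_lt_two_pow hc0 hx.1)

theorem main : ∃ f : Vec (2 * 6) → ZMod 2, IsPSMinus (k := 6) f ∧ ¬ IsWeaklyNormal (k := 6) f :=
  ⟨psFun, ⟨sub, finrank_sub, sub_disj, psFun_spec⟩, not_weakly_normal⟩

end H863Z.PS
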