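import Pool.Agent.H863Z.PS.Bits

namespace H863Z.PS

/-- digit `i` of `X` in base `2^B` -/
def dig (B X i : ℕ) : ℕ := X / 2 ^ (B * i) % 2 ^ B

lemma dig_lt (B X i : ℕ) : dig B X i < 2 ^ B := Nat.mod_lt _ (by positivity)

lemma dig_testBit (B X i j : ℕ) :
    (dig B X i).testBit j = (decide (j < B) && X.testBit (B * i + j)) := by
  unfold dig
  rw [Nat.testBit_mod_two_pow, Nat.testBit_div_two_pow, add_comm]

lemma dig_zero (B X : ℕ) : dig B X 0 = X % 2 ^ B := by simp [dig]

lemma dig_succ (B X i : ℕ) : dig B X (i + 1) = dig B (X / 2 ^ B) i := by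
  unfold dig
  rw [Nat.div_div_eq_div_mul, ← pow_add, show B + B * i = B * (i + 1) by ring]

lemma dig_add {B : ℕ} (i : ℕ) : ∀ {X Y : ℕ}, (∀ j, dig B X j + dig B Y j < 2 ^ B) →
    dig B (X + Y) i = dig B X i + dig B Y i := by
  induction i with
  | zero =>
    intro X Y h
    have h0 := h 0
    simp only [dig_zero] at h0 ⊢
    rw [Nat.add_mod, Nat.mod_eq_of_lt h0]
  | succ i ih =>
    intro X Y h
    have h0 := h 0
    simp only [dig_zero] at h0
    rw [dig_succ, dig_succ, dig_succ, Nat.add_div_eq_of_add_mod_lt h0]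
    apply ih
    intro j
    rw [← dig_succ, ← dig_succ]
    exact h _

lemma dig_shift (B X r i : ℕ) : dig B (X >>> (B * r)) i = dig B X (i + r) := by
  apply Nat.eq_of_testBit_eq
  intro j
  rw [dig_testBit, dig_testBit, Nat.testBit_shiftRight]
  congr 2; ring

lemma fold_succ (F s d : ℕ) :
    fold F s (d + 1) = fold F s d + (fold F s d) >>> (2 ^ (s + d)) := rfl

lemma fold_dig {F s : ℕ} (hF : ∀ i, dig (2 ^ s) F i ≤ 1) (d : ℕ) (hd : 2 ^ d < 2 ^ (2 ^ s)) (i : ℕ) :
    dig (2 ^ s) (fold F s d) i = ∑ j ∈ Finset.range (2 ^ d), dig (2 ^ s) F (i + j) := by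
  induction d generalizing i with
  | zero => simp [fold]
  | succ d ih =>
    have hd' : 2 ^ d < 2 ^ (2 ^ s) := by rw [pow_succ] at hd; omega
    have hle : ∀ i, dig (2 ^ s) (fold F s d) i ≤ 2 ^ d := by
      intro i
      rw [ih hd']
      calc _ ≤ ∑ j ∈ Finset.range (2 ^ d), 1 := Finset.sum_le_sum fun j _ => hF _
        _ = 2 ^ d := by simp
    rw [fold_succ, pow_add 2 s d, dig_add, dig_shift, ih hd', ih hd', pow_succ, mul_two,
      Finset.sum_range_add]
    · simp only [add_assoc]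
    · intro j
      rw [dig_shift]
      have h1 := hle j
      have h2 := hle (j + 2 ^ d)
      rw [pow_succ] at hd
      omega

lemma blk_testBit {t i j : ℕ} (hj : j < 2 ^ (t + 1)) :
    (2 ^ (t + 1) * i + j).testBit t = j.testBit t := by
  rw [Nat.testBit_two_pow_mul_add _ hj]; simp

lemma testBit_half {t j : ℕ} (hj : j < 2 ^ (t + 1)) : j.testBit t = decide (2 ^ t ≤ j) := by
  have := mod_lt_iff j t
  rw [Nat.mod_eq_of_lt hj] at this
  cases hb : j.testBit t
  · have := this.mpr hb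
    simp; omega
  · have h : ¬ j < 2 ^ t := by rw [this, hb]; simp
    simp; omega

/-- digits of a number supported in the lower halves of the blocks -/
lemma dig_low {t d Y : ℕ} (hY : ∀ x, Y.testBit x = true → (mkR t d).testBit x = true) (i : ℕ) :
    dig (2 ^ (t + 1)) Y i < 2 ^ (2 ^ t) := by
  apply Nat.lt_pow_two_of_testBit
  intro j hj
  rw [dig_testBit]
  by_cases h1 : j < 2 ^ (t + 1)
  · cases hb : Y.testBit (2 ^ (t + 1) * i + j)
    · simp
    · have := hY _ hb
      rw [mkR_testBit, blk_testBit h1, testBit_half h1] at this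
      simp [hj] at this
  · simp [h1]

lemma dig_mkR {t d i : ℕ} (hi : i < 2 ^ d) : dig (2 ^ (t + 1)) (mkR t d) i = 2 ^ (2 ^ t) - 1 := by
  apply Nat.eq_of_testBit_eq
  intro j
  rw [dig_testBit, Nat.testBit_two_pow_sub_one, mkR_testBit]
  by_cases h1 : j < 2 ^ (t + 1)
  · have h2 : 2 ^ (t + 1) * i + j < 2 ^ (t + 1 + d) := by
      have : 2 ^ (t + 1) * (i + 1) ≤ 2 ^ (t + 1) * 2 ^ d := Nat.mul_le_mul_left _ hi
      rw [pow_add 2 (t + 1) d]; nlinarith
    rw [blk_testBit h1, testBit_half h1]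
    by_cases h3 : j < 2 ^ t
    · have : ¬ 2 ^ t ≤ j := by omega
      simp [h1, h2, h3, this]
    · have : 2 ^ t ≤ j := by omega
      simp [h3, this]
  · have : ¬ j < 2 ^ t := by rw [pow_succ] at h1; omega
    simp [h1, this]

lemma flg_dig {t d Y : ℕ} (hY : ∀ x, Y.testBit x = true → (mkR t d).testBit x = true) (i : ℕ) :
    dig (2 ^ (t + 1)) (flg t (mkR t d) Y) i ≤ 1 ∧
    (i < 2 ^ d → dig (2 ^ (t + 1)) Y i ≠ 0 → 1 ≤ dig (2 ^ (t + 1)) (flg t (mkR t d) Y) i) := by
  have hK : 2 ^ (2 ^ t) + 2 ^ (2 ^ t) ≤ 2 ^ (2 ^ (t + 1)) := by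
    rw [← two_mul, ← pow_succ']
    apply Nat.pow_le_pow_right (by norm_num)
    have : 0 < 2 ^ t := by positivity
    rw [pow_succ]; omega
  have hm := fun j => dig_low (t := t) (d := d) (Y := mkR t d) (fun _ h => h) j
  have hy := fun j => dig_low hY j
  have hZ : ∀ j, dig (2 ^ (t + 1)) (Y + mkR t d) j
      = dig (2 ^ (t + 1)) Y j + dig (2 ^ (t + 1)) (mkR t d) j := by
    intro j
    apply dig_add
    intro j
    have := hm j
    have := hy j
    omega
  have hbit : ∀ j, (dig (2 ^ (t + 1)) (flg t (mkR t d) Y) i).testBit j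
      = (decide (j < 2 ^ (t + 1)) && ((Y + mkR t d).testBit (2 ^ t + (2 ^ (t + 1) * i + j))
        && (mkR t d).testBit (2 ^ (t + 1) * i + j))) := by
    intro j
    rw [dig_testBit]
    change (_ && (((Y + mkR t d) >>> (2 ^ t)) &&& mkR t d).testBit _) = _
    rw [Nat.testBit_and, Nat.testBit_shiftRight]
  have hZlt : dig (2 ^ (t + 1)) (Y + mkR t d) i < 2 ^ (2 ^ t + 1) := by
    rw [hZ, pow_succ 2 (2 ^ t)]
    have := hm i
    have := hy i
    omega
  constructor
  · have : dig (2 ^ (t + 1)) (flg t (mkR t d) Y) i < 2 ^ 1 := by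
      apply Nat.lt_pow_two_of_testBit
      intro j hj
      rw [hbit]
      by_cases h1 : j < 2 ^ (t + 1)
      · by_cases h2 : j < 2 ^ t
        · have h3 := dig_testBit (2 ^ (t + 1)) (Y + mkR t d) i (2 ^ t + j)
          have h4 : 2 ^ t + j < 2 ^ (t + 1) := by rw [pow_succ]; omega
          have h5 : (dig (2 ^ (t + 1)) (Y + mkR t d) i).testBit (2 ^ t + j) = false :=
            Nat.testBit_lt_two_pow (lt_of_lt_of_le hZlt
              (Nat.pow_le_pow_right (by norm_num) (by omega)))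
          rw [h5, show 2 ^ (t + 1) * i + (2 ^ t + j) = 2 ^ t + (2 ^ (t + 1) * i + j) by ring] at h3
          simp only [h4, decide_true, Bool.true_and] at h3
          rw [← h3]; simp
        · rw [mkR_testBit, blk_testBit h1, testBit_half h1]
          have : 2 ^ t ≤ j := by omega
          simp [this]
      · simp [h1]
    omega
  · intro hi hne
    have h0 : (0 : ℕ) < 2 ^ (t + 1) := by positivity
    have h1 : (dig (2 ^ (t + 1)) (Y + mkR t d) i).testBit (2 ^ t) = true := by
      apply Nat.testBit_of_two_pow_le_and_two_pow_add_one_gt _ hZlt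
      rw [hZ, dig_mkR hi]
      have : 0 < 2 ^ (2 ^ t) := by positivity
      omega
    have h4 : 2 ^ t < 2 ^ (t + 1) := by rw [pow_succ]; have : 0 < 2 ^ t := by positivity
                                        omega
    rw [dig_testBit] at h1
    simp only [h4, decide_true, Bool.true_and] at h1
    have h2 : (dig (2 ^ (t + 1)) (mkR t d) i).testBit 0 = true := by
      rw [dig_mkR hi, Nat.testBit_two_pow_sub_one]; simp
    rw [dig_testBit] at h2
    simp only [h0, decide_true, Bool.true_and] at h2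
    have h3 := hbit 0
    rw [h2, add_zero, add_comm (2 ^ t), h1] at h3
    simp only [h0, decide_true, Bool.true_and] at h3
    by_contra hc
    have : dig (2 ^ (t + 1)) (flg t (mkR t d) Y) i = 0 := by omega
    rw [this] at h3
    simp at h3

lemma alv_of {n t k Y u : ℕ} (ht : 3 ≤ t) (htn : t + 1 ≤ n) (hn : n ≤ 13) (hu : u < 2 ^ t)
    (hY : ∀ x, Y.testBit x = true → (mkR t (n - 1)).testBit x = true)
    (I : Finset ℕ) (hI : 2 ^ k ≤ I.card) (hIlt : ∀ i ∈ I, i < 2 ^ (n - 1 - t))
    (hIb : ∀ i ∈ I, ∃ j < 2 ^ (t + 1), Y.testBit (u * 2 ^ n + (2 ^ (t + 1) * i + j)) = true) :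
    ∃ j < 2 ^ n, (alv n t k Y).testBit (u * 2 ^ n + j) = true := by
  set NB := 2 ^ (n - 1 - t) with hNB
  have hn2 : 2 ^ n = 2 ^ (t + 1) * NB := by
    rw [hNB, ← pow_add]; congr 1; omega
  have hB : 16 ≤ 2 ^ (t + 1) := by
    calc 16 = 2 ^ 4 := by norm_num
      _ ≤ 2 ^ (t + 1) := Nat.pow_le_pow_right (by norm_num) (by omega)
  have hd : 2 ^ (n - 1 - t) < 2 ^ (2 ^ (t + 1)) :=
    Nat.pow_lt_pow_right (by norm_num) (by omega)
  have hF := fun i => flg_dig hY i
  have hc := fold_dig (fun i => (hF i).1) (n - 1 - t) hd (u * NB)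
  set c := dig (2 ^ (t + 1)) (fold (flg t (mkR t (n - 1)) Y) (t + 1) (n - 1 - t)) (u * NB) with hcdef
  have hup : c ≤ NB := by
    rw [hc]
    calc _ ≤ ∑ j ∈ Finset.range NB, 1 := Finset.sum_le_sum fun j _ => (hF _).1
      _ = NB := by simp
  have hlow : 2 ^ k ≤ c := by
    rw [hc]
    calc 2 ^ k ≤ ∑ j ∈ I, 1 := by simpa using hI
      _ ≤ ∑ j ∈ I, dig (2 ^ (t + 1)) (flg t (mkR t (n - 1)) Y) (u * NB + j) := by
        apply Finset.sum_le_sum
        intro i hi
        apply (hF _).2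
        · have h1 := hIlt i hi
          have h2 : (u + 1) * NB ≤ 2 ^ t * NB := Nat.mul_le_mul_right _ hu
          have h3 : 2 ^ t * NB = 2 ^ (n - 1) := by rw [hNB, ← pow_add]; congr 1; omega
          nlinarith
        · obtain ⟨j, hj, hb⟩ := hIb i hi
          intro h0
          have h1 := dig_testBit (2 ^ (t + 1)) Y (u * NB + i) j
          rw [h0, show 2 ^ (t + 1) * (u * NB + i) + j = u * 2 ^ n + (2 ^ (t + 1) * i + j) by
            rw [hn2]; ring, hb] at h1
          simp [hj] at h1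
      _ ≤ _ := by
        apply Finset.sum_le_sum_of_subset_of_nonneg
        · intro i hi; exact Finset.mem_range.mpr (hIlt i hi)
        · intros; positivity
  have hc0 : c ≠ 0 := by have : 0 < 2 ^ k := by positivity
                         omega
  have hlog1 : k ≤ Nat.log2 c := (Nat.le_log2 hc0).mpr hlow
  have hlog2 : Nat.log2 c < n - t := by
    rw [Nat.log2_lt hc0]
    exact lt_of_le_of_lt hup (Nat.pow_lt_pow_right (by norm_num) (by omega))
  have hb := Nat.testBit_log2 hc0
  refine ⟨Nat.log2 c, ?_, ?_⟩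
  · have : n < 2 ^ n := Nat.lt_two_pow_self
    omega
  · change ((fold (flg t (mkR t (n - 1)) Y) (t + 1) (n - 1 - t)) &&&
      (rep ((2 ^ (n - t) - 1) <<< k) n t)).testBit _ = true
    rw [Nat.testBit_and, rep_of hu]
    · conv at hb => rw [hcdef]
      rw [dig_testBit, ← hcdef, show 2 ^ (t + 1) * (u * NB) = u * 2 ^ n by rw [hn2]; ring] at hb
      simp only [Bool.and_eq_true] at hb
      rw [hb.2]; rfl
    · rw [Nat.testBit_shiftLeft, Nat.testBit_two_pow_sub_one]
      have : Nat.log2 c - k < n - t := by omega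
      simp [hlog1, this]

end H863Z.PS
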